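import Pool.Agent.Helper48.HH.Curve
import Pool.Agent.Helper48.HH.Tri
import Pool.Agent.Helper43.HH.Track

/-! Project HH (joins): the pairs of equations descend to the intermediate fields. -/

set_option autoImplicit false

namespace Pool.Agent.Helper48.HH

open IntermediateField MvPolynomial TensorProduct Pool.Agent.Helper75.QC Pool.Agent.Helper43.HH

theorem track_of {m : ℕ} (hm : 1 < m) (h : m ≤ 7 ∨ m = 10) : StmtTrack m := by
  rcases h with h | rfl
  · interval_cases m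
    exacts [track2, track3, track4, track5, track6, track7]
  · exact track10

section

variable {Ω K M : Type} [Field Ω] [Field K] [Algebra Ω K] [Field M] [Algebra Ω M]

/-- the equation of `w ^ k` -/
theorem desc_curve {n m k : ℕ} (hn : n = m * k) (j : M →ₐ[Ω] K) {x y w : K} {x₁ y₁ w₁ : M}
    (ex : j x₁ = x) (ey : j y₁ = y) (ew : j w₁ = w ^ k) {r : ℕ} (e : Fin r → ℕ)
    (f : Fin r → MvPolynomial (Fin 2) Ω) (heq : w ^ n = ∏ i, aeval ![x, y] (f i) ^ e i) :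
    w₁ ^ m = ∏ i, aeval ![x₁, y₁] (f i) ^ e i := by
  refine (RingHom.injective (j : M →+* K)) ?_
  change j (w₁ ^ m) = j (∏ i, aeval ![x₁, y₁] (f i) ^ e i)
  rw [map_pow, ew, ← pow_mul, mul_comm k m, ← hn, heq, map_prod]
  refine Finset.prod_congr rfl fun i _ => ?_
  rw [map_pow, Pool.Agent.Helper75.QC.map_aeval75, ex, ey]

theorem desc_tri {n m k s t : ℕ} (hn : n = m * k) (j : M →ₐ[Ω] K) {x y w : K} {x₁ y₁ w₁ : M}
    (ex : j x₁ = x) (ey : j y₁ = y) (ew : j w₁ = w ^ k) (h : IsTri Ω s t n x y w) :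
    IsTri Ω s t m x₁ y₁ w₁ := by
  obtain ⟨h1, h2, h3, a, b, c, f, g, h, h4, h5, h6, h7, h8, h9⟩ := h
  have e : ∀ p : MvPolynomial (Fin 2) Ω, j (aeval ![x₁, y₁] p) = aeval ![x, y] p := fun p => by
    rw [Pool.Agent.Helper75.QC.map_aeval75, ex, ey]
  refine ⟨h1, h2, h3, a, b, c, f, g, h, h4, h5, h6, h7, fun h10 => h8 ?_, ?_⟩
  · rw [← e, h10, map_zero]
  · refine (RingHom.injective (j : M →+* K)) ?_
    change j (w₁ ^ m * aeval ![x₁, y₁] g ^ (s + t)) =
      j (aeval ![x₁, y₁] f ^ s * aeval ![x₁, y₁] h ^ t)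
    rw [map_mul, map_mul, map_pow, map_pow, map_pow, map_pow, e, e, e, ew, ← pow_mul,
      mul_comm k m, ← hn, h9]

/-- the condition for the divisors of `n` -/
theorem desc_sum {m k : ℕ} (hk : 0 < k) {r : ℕ} (d e : Fin r → ℕ)
    (hc : ∀ l < m * k, ∑ i, d i * (l * e i % (m * k)) ≤ 2 * (m * k) ∨
      ∑ i, d i * ((m * k - l) * e i % (m * k)) ≤ 2 * (m * k)) :
    ∀ l < m, ∑ i, d i * (l * e i % m) ≤ 2 * m ∨ ∑ i, d i * ((m - l) * e i % m) ≤ 2 * m := by
  intro l hl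
  have h1 : ∀ q : ℕ, ∑ i, d i * (q * k * e i % (m * k)) = (∑ i, d i * (q * e i % m)) * k := by
    intro q
    rw [Finset.sum_mul]
    refine Finset.sum_congr rfl fun i _ => ?_
    rw [show q * k * e i = q * e i * k by ring, Nat.mul_mod_mul_right, mul_assoc]
  have h2 := hc (l * k) (Nat.mul_lt_mul_of_pos_right hl hk)
  rw [← Nat.sub_mul, h1, h1] at h2
  rcases h2 with h2 | h2
  · left
    refine Nat.le_of_mul_le_mul_right ?_ hk
    rw [mul_assoc]
    exact h2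
  · right
    refine Nat.le_of_mul_le_mul_right ?_ hk
    rw [mul_assoc]
    exact h2

end

variable {Ω L G : Type} [Field Ω] [Field L] (T : JoinTheory Ω L G)

theorem good_of_uniruled {K K' : Type} [Field K] [Algebra Ω K] [Field K'] [Algebra Ω K']
    (h : Uniruled Ω K 2 ∨ Uniruled Ω K' 2) (t : T.H 2 K ⊗[L] T.H 2 K') : T.Good t := by
  have h0 : t = 0 := by
    rcases h with h | h
    · have h1 : (LinearMap.id : T.H 2 K →ₗ[L] T.H 2 K) = 0 :=
        LinearMap.ext fun v => T.uniruled 2 K h v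
      have h2 : TensorProduct.map (LinearMap.id : T.H 2 K →ₗ[L] T.H 2 K)
          (LinearMap.id : T.H 2 K' →ₗ[L] T.H 2 K') t = t := by
        rw [TensorProduct.map_id, LinearMap.id_apply]
      rw [← h2, h1, map_zero_left, LinearMap.zero_apply]
    · have h1 : (LinearMap.id : T.H 2 K' →ₗ[L] T.H 2 K') = 0 :=
        LinearMap.ext fun v => T.uniruled 2 K' h v
      have h2 : TensorProduct.map (LinearMap.id : T.H 2 K →ₗ[L] T.H 2 K)
          (LinearMap.id : T.H 2 K' →ₗ[L] T.H 2 K') t = t := by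
        rw [TensorProduct.map_id, LinearMap.id_apply]
      rw [← h2, h1, map_zero_right, LinearMap.zero_apply]
  rw [h0]
  exact ⟨Submodule.zero_mem _, fun _ => Submodule.zero_mem _⟩

/-- two curves with the same exponents -/
def IsCurves (Ω : Type) {K K' : Type} [Field Ω] [Field K] [Algebra Ω K] [Field K'] [Algebra Ω K']
    (n : ℕ) (x y w : K) (x' y' w' : K') : Prop :=
  ∃ (r : ℕ) (d e : Fin r → ℕ) (f g : Fin r → MvPolynomial (Fin 2) Ω),
    (∀ i, (f i).totalDegree ≤ d i) ∧ (∀ i, (g i).totalDegree ≤ d i) ∧ n ∣ ∑ i, d i * e i ∧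
    ((n ≤ 7 ∨ n = 10) ∧ (∀ k < n, ∑ i, d i * (k * e i % n) ≤ 2 * n ∨
        ∑ i, d i * ((n - k) * e i % n) ≤ 2 * n) ∨
      r ≤ 3 ∧ (∑ i, d i ≤ 4 ∨ ∑ i, d i = 5 ∧ (Finset.univ.filter fun i => d i = 1).card ≤ 1)) ∧
    w ^ n = ∏ i, aeval ![x, y] (f i) ^ e i ∧ w' ^ n = ∏ i, aeval ![x', y'] (g i) ^ e i

/-- **The joins.** -/
theorem join [IsAlgClosed Ω] [CharZero L] [IsAlgClosed L] {K K' : Type} [Field K]
    [Algebra Ω K] [Field K'] [Algebra Ω K'] {n : ℕ} {ζ : Ω} {x y w : K} {x' y' w' : K'}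
    {σ : K →ₐ[Ω] K} {σ' : K' →ₐ[Ω] K'} (h : IsCyc Ω n ζ x y w σ) (h' : IsCyc Ω n ζ x' y' w' σ')
    (hlist : IsCurves Ω n x y w x' y' w' ∨
      ∃ s t : ℕ, IsTri Ω s t n x y w ∧ IsTri Ω s t n x' y' w')
    (t : T.H 2 K ⊗[L] T.H 2 K') (ht : TensorProduct.map (T.map 2 σ) (T.map 2 σ') t = t) :
    T.Good t := by
  refine main T h h' (fun m k hmk hm M M' _ _ _ _ j j' x₁ y₁ w₁ x₁' y₁' w₁' σ₁ σ₁' ex ey ew ex' ey'
    ew' h₁ h₁' => ?_) t ht
  have hk : 0 < k := Nat.pos_of_ne_zero (by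
    rintro rfl
    have := h.pos
    omega)
  have hmn : m ≤ n := by
    rw [hmk]
    exact Nat.le_mul_of_pos_right _ hk
  rcases hlist with ⟨r, d, e, f, g, hf, hg, hdvd, hc, heq, heq'⟩ | ⟨s, t, hs, hs'⟩
  · have hdvd' : m ∣ ∑ i, d i * e i := Dvd.dvd.trans ⟨k, hmk⟩ hdvd
    have heq₁ := desc_curve hmk j ex ey ew e f heq
    have heq₁' := desc_curve hmk j' ex' ey' ew' e g heq'
    rcases hc with ⟨hn, hc⟩ | ⟨hr, hc⟩
    · have hm' : m ≤ 7 ∨ m = 10 := by
        rcases hn with hn | hn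
        · left
          omega
        · rw [hn] at hmk hmn
          interval_cases m <;> omega
      refine pair_curve (track_of hm hm') hm h₁ h₁' d e hdvd' ?_ f hf heq₁ g hg heq₁'
      rw [hmk] at hc
      exact desc_sum hk d e hc
    · exact pair_curve3 hm h₁ h₁' d e hr hdvd' hc f hf heq₁ g hg heq₁'
  · exact pair_tri h₁ h₁' (desc_tri hmk j ex ey ew hs) (desc_tri hmk j' ex' ey' ew' hs')

end Pool.Agent.Helper48.HH
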