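import Pool.Agent.Helper48.HH.Defs
import Pool.Agent.Helper48.HH.Join
import Pool.Agent.Helper48.TT.Conv

/-! Project HH (joins): from the axioms as stated in `Defs` to the structure used in the proofs. -/

set_option autoImplicit false

namespace Pool.Agent.Helper48.HH

open IntermediateField TensorProduct CategoryTheory MonoidalCategory Pool.Agent.Helper15.GD
  Pool.Agent.Helper48.TT

variable {Ω L G : Type} [Field Ω] [Field L]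

/-- the structure used in the proofs -/
noncomputable def JoinCoh.toTheory (T : JoinCoh Ω L G) (h : T.IsTheory) : JoinTheory Ω L G where
  toBaseTheory := T.toCoh.toBase h.base
  act := fun i K _ _ γ => (T.act i ⟨K⟩ γ).hom
  map_act := fun i {K K'} _ _ _ _ g γ t =>
    congrArg (fun f => f.hom t) (h.equivariant i ⟨K⟩ ⟨K'⟩ g γ)
  tate := T.tate
  corr := fun K C D _ _ _ _ _ _ => {g | ModuleCat.ofHom g ∈ T.corr ⟨K⟩ ⟨C⟩ ⟨D⟩}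
  cycles := fun K K' _ _ _ _ => LinearMap.range (T.cl ⟨K⟩ ⟨K'⟩).hom
  sup := fun K K' _ _ _ _ => LinearMap.range (T.inc ⟨K⟩ ⟨K'⟩).hom
  simple := fun C _ _ n α β ζ v u σ h1 h2 h3 h4 h5 h6 h7 ξ z z' hz0 hz hz' => by
    obtain ⟨c, hc⟩ := h.lines ⟨C⟩ n α β ζ v u σ ⟨h1, h2, h3, h4, h5, h6, h7⟩ ξ (ofEl z) (ofEl z')
      (fun h0 => hz0 (ofEl_inj (h0.trans (map_zero _).symm)))
      (by rw [ofEl_comp]; exact isMul_ofEl.2 hz.symm)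
      (by rw [ofEl_comp]; exact isMul_ofEl.2 hz'.symm)
    exact ⟨c, (isMul_ofEl.1 hc).symm⟩
  semisimple := fun K _ _ hK P hP => by
    exact h.semisimple ⟨K⟩ hK P hP
  gysin := fun {K C N} _ _ _ _ _ _ a b x y v h1 h2 h3 h4 h5 => by
    obtain ⟨D, hD, g, hg, hh, hk⟩ := h.gysin ⟨K⟩ ⟨C⟩ ⟨N⟩ a b ⟨h1, h2, ⟨x, y, h3⟩, ⟨v, h4, h5⟩⟩
    refine ⟨D.carrier, D.field, D.algebra, g.hom, hD, hg, fun γ s => ?_, fun t ht => ?_⟩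
    · exact congrArg (fun f => f.hom s) (hh γ)
    · have e0 := T.cross_eq (K := ⟨K⟩) (C := ⟨C⟩) (N := ⟨N⟩) a b
      have e1 : TensorProduct.lift ((T.cup' ⟨N⟩).compl₁₂ (T.map (K := ⟨K⟩) (K' := ⟨N⟩) 2 a).hom
          (T.map (K := ⟨C⟩) (K' := ⟨N⟩) 1 b).hom) t =
          (T.cross (K := ⟨K⟩) (C := ⟨C⟩) (N := ⟨N⟩) a b).hom t := by rw [e0]
      have ht' : (T.cross (K := ⟨K⟩) (C := ⟨C⟩) (N := ⟨N⟩) a b).hom t = 0 := by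
        rw [← e1]
        exact ht
      have h6 := hk (𝟙_ (ModuleCat.{0} L)) (ofEl (M := T.H 2 ⟨K⟩ ⊗ T.H 1 ⟨C⟩) t) (by
        rw [ofEl_comp, ht', map_zero])
      rw [lifts_ofEl] at h6
      exact h6
  pair := fun K C D K' C' D' _ _ _ _ _ _ _ _ _ _ _ _ g hg g' hg' r q hq => by
    have hq' : ∀ γ, IsMul (T.tate γ)
        ((T.act 1 ⟨C⟩ γ ⊗ₘ T.act 1 ⟨C'⟩ γ) ≫ ModuleCat.ofHom q) (ModuleCat.ofHom q) :=
      fun γ => ModuleCat.hom_ext (LinearMap.ext fun t => hq γ t)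
    have h1 := h.supports ⟨K⟩ ⟨C⟩ ⟨D⟩ ⟨K'⟩ ⟨C'⟩ ⟨D'⟩ (ModuleCat.ofHom g) hg (ModuleCat.ofHom g') hg'
      (ofEl (M := T.H 1 ⟨D⟩ ⊗ T.H 1 ⟨D'⟩) r) (ModuleCat.ofHom q) hq'
    rw [contr₂_ofEl, lifts_ofEl] at h1
    refine ⟨h1, fun hr => ?_⟩
    have h2 := h.pairs ⟨K⟩ ⟨C⟩ ⟨D⟩ ⟨K'⟩ ⟨C'⟩ ⟨D'⟩ (ModuleCat.ofHom g) hg (ModuleCat.ofHom g') hg'
      (ofEl (M := T.H 1 ⟨D⟩ ⊗ T.H 1 ⟨D'⟩) r) (ModuleCat.ofHom q)
      (fun γ => by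
        rw [ofEl_comp]
        exact isMul_ofEl.2 (hr γ)) hq'
    rw [contr₂_ofEl, lifts_ofEl] at h2
    exact h2
  transfer := fun {K K₁ K' K₁'} _ _ _ _ _ _ _ _ j j' hj hj' t => by
    have h1 := h.supImages ⟨K⟩ ⟨K₁⟩ ⟨K'⟩ ⟨K₁'⟩ j j' hj hj' (ofEl (M := T.H 2 ⟨K⟩ ⊗ T.H 2 ⟨K'⟩) t)
    have h2 := h.images ⟨K⟩ ⟨K₁⟩ ⟨K'⟩ ⟨K₁'⟩ j j' hj hj' (ofEl (M := T.H 2 ⟨K⟩ ⊗ T.H 2 ⟨K'⟩) t)
    rw [ofEl_comp, lifts_ofEl, lifts_ofEl] at h1 h2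
    exact ⟨h1, h2⟩
  dual := fun n α β ζ ξ C _ _ z κ C' _ _ z' κ' hz hz' γ => by
    have key : ∀ (ξ : L) (C : Type) [Field C] [Algebra Ω C] (z : T.H 1 ⟨C⟩) (κ : G → L),
        IsVec (T.toCoh.toBase h.base) n α β ζ ξ C (fun γ => (T.act 1 ⟨C⟩ γ).hom) z κ →
        T.IsEigen n α β ζ ξ (C := ⟨C⟩) (ofEl (M := T.H 1 ⟨C⟩) z) κ := by
      rintro ξ C _ _ z κ ⟨v, u, σ, h1, h2, h3, h4, h5, h6, h7, h8, h9, h10, h11⟩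
      refine ⟨v, u, σ, ⟨h1, h2, h3, h4, h5, h6, h7⟩,
        fun h0 => h9 (ofEl_inj (h0.trans (map_zero _).symm)), ?_, fun γ => ?_⟩
      · rw [ofEl_comp]
        exact isMul_ofEl.2 h10.symm
      · rw [ofEl_comp]
        exact isMul_ofEl.2 (h11 γ).symm
    have h1 := h.duality n α β ζ ξ⁻¹ ⟨C⟩ ⟨C'⟩ _ _ κ κ' (key ξ⁻¹ C z κ hz)
      (by rw [inv_inv]; exact key ξ C' z' κ' hz') γ
    rw [mul_comm]
    exact h1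

end Pool.Agent.Helper48.HH
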