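import Pool.Agent.Helper48.HH.Side

/-! Project HH (joins): two sides with inverse eigenvalues. -/

set_option autoImplicit false

namespace Pool.Agent.Helper48.HH

open IntermediateField TensorProduct Pool.Agent.Helper75.QC Pool.Agent.Helper48.TT

variable {Ω L G : Type} [Field Ω] [Field L] (T : JoinTheory Ω L G)

/-- the good submodule: `sup`, and `cycles` for Tate classes -/
def JoinTheory.Good {K K' : Type} [Field K] [Algebra Ω K] [Field K'] [Algebra Ω K']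
    (t : T.H 2 K ⊗[L] T.H 2 K') : Prop :=
  t ∈ T.sup K K' ∧
    ((∀ γ, T.tate γ ^ 2 • TensorProduct.map (T.act 2 K γ) (T.act 2 K' γ) t = t) →
      t ∈ T.cycles K K')

/-- **Two sides.** -/
theorem coreP {K₁ M C D K₁' M' C' D' : Type} [Field K₁] [Algebra Ω K₁] [Field M] [Algebra Ω M]
    [Field C] [Algebra Ω C] [Field D] [Algebra Ω D] [Field K₁'] [Algebra Ω K₁'] [Field M']
    [Algebra Ω M'] [Field C'] [Algebra Ω C'] [Field D'] [Algebra Ω D']
    {s : T.H 2 K₁ →ₗ[L] T.H 2 M} {κ : G → L} {z : T.H 1 C}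
    {g : T.H 1 D →ₗ[L] T.H 2 M ⊗[L] T.H 1 C} {d : T.H 2 K₁ →ₗ[L] T.H 1 D} {φ : T.H 1 C →ₗ[L] L}
    (h : IsSide T s κ C D z g d φ)
    {s' : T.H 2 K₁' →ₗ[L] T.H 2 M'} {κ' : G → L} {z' : T.H 1 C'}
    {g' : T.H 1 D' →ₗ[L] T.H 2 M' ⊗[L] T.H 1 C'} {d' : T.H 2 K₁' →ₗ[L] T.H 1 D'}
    {φ' : T.H 1 C' →ₗ[L] L} (h' : IsSide T s' κ' C' D' z' g' d' φ')
    (hdual : ∀ γ, T.tate γ * (κ γ * κ' γ) = 1) (t : T.H 2 K₁ ⊗[L] T.H 2 K₁') :
    TensorProduct.map s s' t ∈ T.sup M M' ∧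
      ((∀ γ, T.tate γ ^ 2 • TensorProduct.map (T.act 2 K₁ γ) (T.act 2 K₁' γ) t = t) →
        TensorProduct.map s s' t ∈ T.cycles M M') := by
  let q : T.H 1 C ⊗[L] T.H 1 C' →ₗ[L] L :=
    (TensorProduct.lid L L).toLinearMap ∘ₗ TensorProduct.map φ φ'
  have hq : ∀ y y', q (y ⊗ₜ y') = φ y * φ' y' := fun y y' => by
    show TensorProduct.lid L L (TensorProduct.map φ φ' (y ⊗ₜ y')) = _
    rw [map_tmul, lid_tmul, smul_eq_mul]
  have h1 := T.pair M C D M' C' D' g h.corr g' h'.corr (TensorProduct.map d d' t) q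
    (fun γ u => by
      induction u using TensorProduct.induction_on with
      | zero => simp
      | add u u' hu hu' => rw [map_add, map_add, smul_add, hu, hu', map_add]
      | tmul y y' =>
        rw [map_tmul, hq, hq, h.form, h'.form, smul_eq_mul]
        linear_combination (φ y * φ' y') * hdual γ)
  have h2 : ∀ u : T.H 2 K₁ ⊗[L] T.H 2 K₁',
      contr q (TensorProduct.map g g' (TensorProduct.map d d' u)) = TensorProduct.map s s' u := by
    intro u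
    induction u using TensorProduct.induction_on with
    | zero => simp
    | add u u' hu hu' => simp only [map_add, hu, hu']
    | tmul p p' =>
      rw [map_tmul, map_tmul, h.lift, h'.lift, contr_tmul, hq, h.one, h'.one, mul_one, one_smul,
        map_tmul]
  rw [h2] at h1
  refine ⟨h1.1, fun ht => h1.2 fun γ => ?_⟩
  have e1 : ∀ u : T.H 2 K₁ ⊗[L] T.H 2 K₁',
      TensorProduct.map (T.act 1 D γ) (T.act 1 D' γ) (TensorProduct.map d d' u) =
      (κ γ * κ' γ) • TensorProduct.map d d'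
        (T.tate γ ^ 2 • TensorProduct.map (T.act 2 K₁ γ) (T.act 2 K₁' γ) u) := by
    intro u
    induction u using TensorProduct.induction_on with
    | zero => simp
    | add u u' hu hu' => simp only [map_add, smul_add, hu, hu']
    | tmul p q =>
      rw [map_tmul, map_tmul, map_tmul, map_smul, map_tmul, h.equiv, h'.equiv, smul_tmul_smul,
        smul_smul]
      congr 1
      ring
  rw [e1, ht, smul_smul, hdual, one_smul]

/-- **Two sides of the same type.** -/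
theorem pairP {M M' : Type} [Field M] [Algebra Ω M] [Field M'] [Algebra Ω M'] {σ : M →ₐ[Ω] M}
    {σ' : M' →ₐ[Ω] M'} {n α β : ℕ} {ζ : Ω} (hrow : RowP Ω M σ n α β ζ)
    (hrow' : RowP Ω M' σ' n α β ζ) (hn : 0 < n) (hn' : (n : Ω) ≠ 0) (hζ : IsPrimitiveRoot ζ n)
    (hab : (α.gcd β).Coprime n) {ξ : L} (hξn : ξ ^ n = 1) (hα : ξ ^ α ≠ 1) (hβ : ξ ^ β ≠ 1)
    (hαβ : ξ ^ (α + β) ≠ 1) {K₁ K₁' : Type} [Field K₁] [Algebra Ω K₁] [Field K₁'] [Algebra Ω K₁']
    (s : T.H 2 K₁ →ₗ[L] T.H 2 M) (hs : ∀ γ t, T.act 2 M γ (s t) = s (T.act 2 K₁ γ t))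
    (hσs : ∀ t, T.map 2 σ (s t) = ξ • s t)
    (s' : T.H 2 K₁' →ₗ[L] T.H 2 M') (hs' : ∀ γ t, T.act 2 M' γ (s' t) = s' (T.act 2 K₁' γ t))
    (hσs' : ∀ t, T.map 2 σ' (s' t) = ξ⁻¹ • s' t) (t : T.H 2 K₁ ⊗[L] T.H 2 K₁') :
    TensorProduct.map s s' t ∈ T.sup M M' ∧
      ((∀ γ, T.tate γ ^ 2 • TensorProduct.map (T.act 2 K₁ γ) (T.act 2 K₁' γ) t = t) →
        TensorProduct.map s s' t ∈ T.cycles M M') := by
  have hinv : ∀ j : ℕ, ξ ^ j ≠ 1 → ξ⁻¹ ^ j ≠ 1 := by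
    intro j hj h
    apply hj
    rwa [inv_pow, inv_eq_one] at h
  obtain ⟨C, D, _, _, _, _, z, κ, g, d, φ, hv, hside⟩ := exists_sideP T hrow hn hn' hζ
    hab hξn hα hβ hαβ s hs hσs
  obtain ⟨C', D', _, _, _, _, z', κ', g', d', φ', hv', hside'⟩ := exists_sideP T hrow'
    hn hn' hζ hab (ξ := ξ⁻¹) (by rw [inv_pow, hξn, inv_one]) (hinv _ hα) (hinv _ hβ) (hinv _ hαβ)
    s' hs' hσs'
  rw [inv_inv] at hv'
  exact coreP T hside hside' (T.dual n α β ζ ξ C z κ C' z' κ' hv hv') t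

end Pool.Agent.Helper48.HH
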