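import Pool.Agent.Helper48.HH.Main
import Pool.Agent.Helper15.WC.RowM
import Pool.Agent.Helper43.HH.Track3

/-! Project HH (joins): two cyclic covers of the plane of the same type. -/

set_option autoImplicit false

namespace Pool.Agent.Helper48.HH

open IntermediateField MvPolynomial Pool.Agent.Helper75.QC Pool.Agent.Helper75.WC
  Pool.Agent.Helper43.V7

/-- **The representation of a cyclic cover.** -/
theorem rep_of_curve' {Ω R M : Type} [Field Ω] [Field R] [Field M] [Algebra Ω R] [Algebra Ω M]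
    [Algebra R M] {n : ℕ} (hn : 0 < n) {x y : R} {w : M} (hR : adjoin Ω {x, y} = ⊤)
    (hw : adjoin R {w} = ⊤) {r : ℕ} (d e : Fin r → ℕ) (f : Fin r → MvPolynomial (Fin 2) Ω)
    (hd : ∀ i, (f i).totalDegree ≤ d i) (hne : ∀ i, aeval ![x, y] (f i) ≠ 0)
    (heq : w ^ n = algebraMap R M (∏ i, aeval ![x, y] (f i) ^ e i)) :
    ∃ (H : Rep Ω R M n (ent (0 :: typ n d e))) (u : R), H.w = w * algebraMap R M u := by
  classical
  obtain ⟨z, hz⟩ : ∃ z : R, z = ∏ i, aeval ![x, y] (f i) ^ (e i / n) := ⟨_, rfl⟩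
  have hz0 : z ≠ 0 := by
    rw [hz, Finset.prod_ne_zero_iff]
    exact fun i _ => pow_ne_zero _ (hne i)
  have hzM : algebraMap R M z ≠ 0 := by simpa using hz0
  let P : ℕ → MvPolynomial (Fin 2) Ω := fun k =>
    if k = 0 ∨ n ≤ k then 1 else ∏ i with e i % n = k, f i
  refine ⟨⟨x, y, w * algebraMap R M z⁻¹, P, hR, ?_, fun k => ?_, fun k => ?_, ?_⟩, z⁻¹, rfl⟩
  · rw [map_inv₀, ← div_eq_mul_inv]
    rw [eq_top_iff, ← hw, adjoin_le_iff]
    intro w' hw'
    rw [Set.mem_singleton_iff] at hw'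
    rw [hw']
    have h2 : w / algebraMap R M z ∈ adjoin R {w / algebraMap R M z} := subset_adjoin _ _ rfl
    have h3 := mul_mem h2 ((adjoin R {w / algebraMap R M z}).algebraMap_mem z)
    rwa [div_mul_cancel₀ _ hzM] at h3
  · rw [ent_typ]
    change (if k = 0 ∨ n ≤ k then 1 else ∏ i with e i % n = k, f i).totalDegree ≤ _
    split_ifs with h
    · simp
    · exact (totalDegree_finsetProd _ _).trans (Finset.sum_le_sum fun i _ => hd i)
  · change aeval ![x, y] (if k = 0 ∨ n ≤ k then 1 else ∏ i with e i % n = k, f i) ≠ 0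
    split_ifs with h
    · simp
    · rw [map_prod, Finset.prod_ne_zero_iff]
      exact fun i _ => hne i
  · rw [map_inv₀, ← div_eq_mul_inv, div_pow, heq, ← map_pow, ← map_div₀]
    congr 1
    rw [div_eq_iff (pow_ne_zero _ hz0), hz, ← Finset.prod_pow]
    have h1 : ∏ k ∈ Finset.range n, aeval ![x, y] (P k) ^ k =
        ∏ i, aeval ![x, y] (f i) ^ (e i % n) := by
      have h2 : ∀ k ∈ Finset.range n, aeval ![x, y] (P k) ^ k =
          ∏ i with e i % n = k, aeval ![x, y] (f i) ^ (e i % n) := by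
        intro k hk
        rw [Finset.mem_range] at hk
        change aeval ![x, y] (if k = 0 ∨ n ≤ k then 1 else ∏ i with e i % n = k, f i) ^ k = _
        by_cases h : k = 0
        · rw [if_pos (Or.inl h), h, pow_zero, Finset.prod_eq_one]
          intro i hi
          rw [(Finset.mem_filter.1 hi).2, pow_zero]
        · rw [if_neg (by omega), map_prod, ← Finset.prod_pow]
          refine Finset.prod_congr rfl fun i hi => ?_
          rw [(Finset.mem_filter.1 hi).2]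
      rw [Finset.prod_congr rfl h2]
      exact Finset.prod_fiberwise_of_maps_to
        (fun i _ => Finset.mem_range.2 (Nat.mod_lt _ hn)) _
    rw [h1, ← Finset.prod_mul_distrib]
    refine Finset.prod_congr rfl fun i _ => ?_
    rw [← pow_mul, ← pow_add]
    congr 1
    rw [mul_comm]
    exact (Nat.mod_add_div _ _).symm

/-- the reduction to values which are not zero -/
theorem curve_ne' {Ω R M : Type} [Field Ω] [Field R] [Field M] [Algebra Ω R] [Algebra Ω M]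
    [Algebra R M] [IsScalarTower Ω R M] {n : ℕ} {x y : R} {w : M} (hw0 : w ≠ 0)
    {r : ℕ} (d e : Fin r → ℕ) (f : Fin r → MvPolynomial (Fin 2) Ω)
    (hd : ∀ i, (f i).totalDegree ≤ d i)
    (heq : w ^ n = ∏ i, aeval ![algebraMap R M x, algebraMap R M y] (f i) ^ e i) :
    ∃ f' : Fin r → MvPolynomial (Fin 2) Ω, (∀ i, (f' i).totalDegree ≤ d i) ∧
      (∀ i, aeval ![x, y] (f' i) ≠ 0) ∧
      w ^ n = algebraMap R M (∏ i, aeval ![x, y] (f' i) ^ e i) := by
  have h1 : w ^ n ≠ 0 := pow_ne_zero _ hw0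
  refine ⟨fun i => if e i = 0 then 1 else f i, fun i => ?_, fun i => ?_, ?_⟩
  · dsimp only
    split_ifs
    · simp
    · exact hd i
  · dsimp only
    split_ifs with h
    · simp
    · intro h2
      apply h1
      rw [heq]
      refine Finset.prod_eq_zero (Finset.mem_univ i) ?_
      rw [aeval_map75, h2, map_zero, zero_pow h]
  · rw [heq, map_prod]
    refine Finset.prod_congr rfl fun i _ => ?_
    dsimp only
    split_ifs with h
    · rw [h]
      simp
    · rw [map_pow, aeval_map75]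

/-- **The representation of `M`.** -/
theorem IsCyc.rep {Ω M : Type} [Field Ω] [Field M] [Algebra Ω M] {n : ℕ} {ζ : Ω} {x y w : M}
    {σ : M →ₐ[Ω] M} (h : IsCyc Ω n ζ x y w σ) {r : ℕ} (d e : Fin r → ℕ)
    (f : Fin r → MvPolynomial (Fin 2) Ω) (hd : ∀ i, (f i).totalDegree ≤ d i)
    (heq : w ^ n = ∏ i, aeval ![x, y] (f i) ^ e i) :
    ∃ B : IntermediateField Ω M, FiniteDimensional B M ∧ IsGalois B M ∧ Module.finrank B M = n ∧
      ∃ (H : Rep Ω B M n (ent (0 :: typ n d e))) (σ' : M →ₐ[B] M), σ'.restrictScalars Ω = σ ∧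
        σ' H.w = algebraMap Ω M ζ * H.w := by
  obtain ⟨h1, h2⟩ := h.galois
  have htop := h.top
  have hdeg := h.deg
  have hfix : ∀ k ∈ adjoin Ω {x, y}, σ k = k := fun k hk => h.fix hk
  have hxB : x ∈ adjoin Ω {x, y} := subset_adjoin _ _ (by simp)
  have hyB : y ∈ adjoin Ω {x, y} := subset_adjoin _ _ (by simp)
  have hgen : ∀ (B : IntermediateField Ω M) (hx : x ∈ B) (hy : y ∈ B), B = adjoin Ω {x, y} →
      adjoin Ω {(⟨x, hx⟩ : B), ⟨y, hy⟩} = ⊤ := by
    intro B hx hy hB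
    apply lift_injective B
    rw [lift_top, lift_adjoin, Set.image_pair]
    exact hB.symm
  obtain ⟨B, hB⟩ : ∃ B : IntermediateField Ω M, B = adjoin Ω {x, y} := ⟨_, rfl⟩
  have hgen' := fun hx hy => hgen B hx hy hB
  rw [← hB] at h1 h2 htop hdeg hfix hxB hyB
  refine ⟨B, h1, h2, hdeg, ?_⟩
  obtain ⟨f', hd', hne, heq'⟩ := curve_ne' (R := B) (x := ⟨x, hxB⟩) (y := ⟨y, hyB⟩) h.ne d e f hd heq
  obtain ⟨H, u, hu⟩ := rep_of_curve' h.pos (hgen' hxB hyB) htop d e f' hd' hne heq'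
  let σ' : M →ₐ[B] M :=
    { toRingHom := (σ : M →+* M)
      commutes' := fun b => hfix b b.2 }
  have hσw : σ' w = algebraMap Ω M ζ * w := h.mul
  refine ⟨H, σ', AlgHom.ext fun _ => rfl, ?_⟩
  rw [hu, map_mul, hσw, AlgHom.commutes, mul_assoc]

/-- the equation over the base field -/
theorem IsCyc.base {Ω M : Type} [Field Ω] [Field M] [Algebra Ω M] {n : ℕ} {ζ : Ω} {x y w : M}
    {σ : M →ₐ[Ω] M} (h : IsCyc Ω n ζ x y w σ) {r : ℕ} (d e : Fin r → ℕ)
    (f : Fin r → MvPolynomial (Fin 2) Ω) (hd : ∀ i, (f i).totalDegree ≤ d i)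
    (heq : w ^ n = ∏ i, aeval ![x, y] (f i) ^ e i) :
    ∃ B : IntermediateField Ω M, FiniteDimensional B M ∧ IsGalois B M ∧ Module.finrank B M = n ∧
      ∃ (x₀ y₀ : B) (f' : Fin r → MvPolynomial (Fin 2) Ω) (σ' : M →ₐ[B] M),
        adjoin Ω {x₀, y₀} = ⊤ ∧ adjoin B {w} = ⊤ ∧ (∀ i, (f' i).totalDegree ≤ d i) ∧
        (∀ i, aeval ![x₀, y₀] (f' i) ≠ 0) ∧
        w ^ n = algebraMap B M (∏ i, aeval ![x₀, y₀] (f' i) ^ e i) ∧
        σ'.restrictScalars Ω = σ ∧ σ' w = algebraMap Ω M ζ * w := by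
  obtain ⟨h1, h2⟩ := h.galois
  have htop := h.top
  have hdeg := h.deg
  have hfix : ∀ k ∈ adjoin Ω {x, y}, σ k = k := fun k hk => h.fix hk
  have hxB : x ∈ adjoin Ω {x, y} := subset_adjoin _ _ (by simp)
  have hyB : y ∈ adjoin Ω {x, y} := subset_adjoin _ _ (by simp)
  have hgen : ∀ (B : IntermediateField Ω M) (hx : x ∈ B) (hy : y ∈ B), B = adjoin Ω {x, y} →
      adjoin Ω {(⟨x, hx⟩ : B), ⟨y, hy⟩} = ⊤ := by
    intro B hx hy hB
    apply lift_injective B
    rw [lift_top, lift_adjoin, Set.image_pair]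
    exact hB.symm
  obtain ⟨B, hB⟩ : ∃ B : IntermediateField Ω M, B = adjoin Ω {x, y} := ⟨_, rfl⟩
  have hgen' := fun hx hy => hgen B hx hy hB
  rw [← hB] at h1 h2 htop hdeg hfix hxB hyB
  refine ⟨B, h1, h2, hdeg, ?_⟩
  obtain ⟨f', hd', hne, heq'⟩ := curve_ne' (R := B) (x := ⟨x, hxB⟩) (y := ⟨y, hyB⟩) h.ne d e f hd heq
  exact ⟨⟨x, hxB⟩, ⟨y, hyB⟩, f',
    { toRingHom := (σ : M →+* M)
      commutes' := fun b => hfix b b.2 }, hgen' hxB hyB, htop, hd', hne, heq',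
    AlgHom.ext fun _ => rfl, h.mul⟩

/-- the sums of the type -/
theorem typ_fsum' {n : ℕ} (hn : 0 < n) {r : ℕ} (d e : Fin r → ℕ) (k : ℕ) :
    ∑ j ∈ Finset.range n, ((k * j) % n) * ent (0 :: typ n d e) j =
      ∑ i, d i * ((k * e i) % n) :=
  typ_fsum hn d e k

/-- double planes -/
theorem double_plane {Ω R M : Type} [Field Ω] [IsAlgClosed Ω] [Field R] [Field M] [Algebra Ω R]
    [Algebra Ω M] [Algebra R M] [IsScalarTower Ω R M] [FiniteDimensional R M] [IsGalois R M]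
    (hfin : Module.finrank R M = 2) {D : ℕ → ℕ} (H : Rep Ω R M 2 D) (hD : D 1 ≤ 4) :
    Uniruled Ω M 2 := by
  have h1 : IsWeighted Ω 2 (algebraMap R M H.x) (algebraMap R M H.y) H.w := by
    refine ⟨1, 1, 0, 0, 2, H.P 1, 1, by norm_num, Or.inr rfl,
      degLE_of (a := 1) ((H.deg 1).trans hD) (by norm_num), Or.inl ⟨Or.inr rfl, ?_, ?_, ?_⟩⟩
    · exact degLE_of (d := 0) (by simp) (by norm_num)
    · rw [map_one]
      exact one_ne_zero
    · rw [map_one, one_pow, mul_one, H.eq, aeval_map75]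
      congr 1
      rw [Finset.prod_range_succ, Finset.prod_range_one, pow_zero, pow_one, one_mul]
  exact (row_uni H.x H.y H.gen H.w H.top hfin h1).2.1 le_rfl

/-- **Two covers of the same type.** -/
theorem pair_curve {Ω M M' : Type} [Field Ω] [IsAlgClosed Ω] [Field M] [Algebra Ω M] [Field M']
    [Algebra Ω M'] {n : ℕ} (htrack : StmtTrack n) (hn : 1 < n) {ζ : Ω} {x y w : M} {x' y' w' : M'}
    {σ : M →ₐ[Ω] M} {σ' : M' →ₐ[Ω] M'} (h : IsCyc Ω n ζ x y w σ) (h' : IsCyc Ω n ζ x' y' w' σ')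
    {r : ℕ} (d e : Fin r → ℕ) (hdvd : n ∣ ∑ i, d i * e i)
    (hc : ∀ k < n, ∑ i, d i * ((k * e i) % n) ≤ 2 * n ∨
      ∑ i, d i * (((n - k) * e i) % n) ≤ 2 * n)
    (f : Fin r → MvPolynomial (Fin 2) Ω) (hf : ∀ i, (f i).totalDegree ≤ d i)
    (heq : w ^ n = ∏ i, aeval ![x, y] (f i) ^ e i)
    (g : Fin r → MvPolynomial (Fin 2) Ω) (hg : ∀ i, (g i).totalDegree ≤ d i)
    (heq' : w' ^ n = ∏ i, aeval ![x', y'] (g i) ^ e i) : PairRow Ω n ζ σ σ' := by
  have hn0 : 0 < n := by omega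
  have hnat : NatAll n (ent (0 :: typ n d e)) := by
    intro k hk
    rw [typ_fsum hn0, typ_fsum hn0]
    exact hc k hk
  obtain ⟨B, hB1, hB2, hB3, H, σB, hσB, hσw⟩ := h.rep d e f hf heq
  obtain ⟨B', hB1', hB2', hB3', H', σB', hσB', hσw'⟩ := h'.rep d e g hg heq'
  rcases Nat.lt_or_ge 2 n with h2 | h2
  · obtain ⟨α, β, t, ht, hab, hrow⟩ := htrack (typ_length d e) (typ_dvd hn0 d e hdvd) hnat
    obtain ⟨h3, h4, h5, h6⟩ := hab.resolve_left (by omega)
    rcases hrow hB3 H σB ζ hσw with h7 | h7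
    · exact Or.inl h7
    rcases hrow hB3' H' σB' ζ hσw' with h8 | h8
    · exact Or.inr (Or.inl h8)
    rw [hσB] at h7
    rw [hσB'] at h8
    exact Or.inr (Or.inr ⟨α, β, t, ht, h3, h4, h5, h6, h7, h8⟩)
  · left
    have h3 : n = 2 := by omega
    subst h3
    refine double_plane hB3 H ?_
    have h4 := hnat 1 (by norm_num)
    simp only [Finset.sum_range_succ, Finset.sum_range_zero] at h4
    omega

/-- **Two covers of the same type, branched along at most three components.** -/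
theorem pair_curve3 {Ω M M' : Type} [Field Ω] [IsAlgClosed Ω] [Field M] [Algebra Ω M] [Field M']
    [Algebra Ω M'] {n : ℕ} (hn : 1 < n) {ζ : Ω} {x y w : M} {x' y' w' : M'}
    {σ : M →ₐ[Ω] M} {σ' : M' →ₐ[Ω] M'} (h : IsCyc Ω n ζ x y w σ) (h' : IsCyc Ω n ζ x' y' w' σ')
    {r : ℕ} (d e : Fin r → ℕ) (hr : r ≤ 3) (hdvd : n ∣ ∑ i, d i * e i)
    (hc : ∑ i, d i ≤ 4 ∨ ∑ i, d i = 5 ∧ (Finset.univ.filter fun i => d i = 1).card ≤ 1)
    (f : Fin r → MvPolynomial (Fin 2) Ω) (hf : ∀ i, (f i).totalDegree ≤ d i)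
    (heq : w ^ n = ∏ i, aeval ![x, y] (f i) ^ e i)
    (g : Fin r → MvPolynomial (Fin 2) Ω) (hg : ∀ i, (g i).totalDegree ≤ d i)
    (heq' : w' ^ n = ∏ i, aeval ![x', y'] (g i) ^ e i) : PairRow Ω n ζ σ σ' := by
  rcases Nat.lt_or_ge 2 n with h2 | h2
  · obtain ⟨B, hB1, hB2, hB3, x₀, y₀, f₀, σB, hxy, hw, hf₀, hne, heq₀, hσB, hσw⟩ :=
      h.base d e f hf heq
    obtain ⟨B', hB1', hB2', hB3', x₀', y₀', g₀, σB', hxy', hw', hg₀, hne', heq₀', hσB', hσw'⟩ :=
      h'.base d e g hg heq'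
    obtain ⟨α, β, t, ht, h3, h4, h5, h6, hrow⟩ :=
      Pool.Agent.Helper43.HH.track3c n r d e h2 hr hc hdvd
    rcases hrow hB3 x₀ y₀ w f₀ hxy hw hf₀ hne heq₀ σB ζ hσw with h7 | h7
    · exact Or.inl h7
    rcases hrow hB3' x₀' y₀' w' g₀ hxy' hw' hg₀ hne' heq₀' σB' ζ hσw' with h8 | h8
    · exact Or.inr (Or.inl h8)
    rw [hσB] at h7
    rw [hσB'] at h8
    exact Or.inr (Or.inr ⟨α, β, t, ht, h3, h4, h5, h6, h7, h8⟩)
  · left
    have h3 : n = 2 := by omega
    subst h3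
    obtain ⟨B, hB1, hB2, hB3, H, σB, hσB, hσw⟩ := h.rep d e f hf heq
    refine double_plane hB3 H ?_
    have h4 := typ_fsum' (n := 2) (by norm_num) d e 1
    simp only [one_mul] at h4
    have h5 : ∑ i, d i * (e i % 2) ≤ ∑ i, d i := Finset.sum_le_sum fun i _ => by
      have := Nat.mod_lt (e i) (show 0 < 2 by norm_num)
      calc d i * (e i % 2) ≤ d i * 1 := Nat.mul_le_mul_left _ (by omega)
        _ = d i := mul_one _
    have h6 : (∑ i, d i * e i) % 2 = (∑ i, d i * (e i % 2)) % 2 := by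
      rw [Finset.sum_nat_mod, Finset.sum_nat_mod (f := fun i => d i * (e i % 2))]
      congr 1
      exact Finset.sum_congr rfl fun i _ => by
        rw [Nat.mul_mod, Nat.mul_mod (d i) (e i % 2), Nat.mod_mod]
    simp only [Finset.sum_range_succ, Finset.sum_range_zero] at h4
    have h7 : ∑ i, d i ≤ 5 := by
      rcases hc with hc | hc
      · omega
      · omega
    omega

end Pool.Agent.Helper48.HH
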