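import Mathlib

/-! Project HH (joins): the projectors of an operator of finite order. -/

set_option autoImplicit false

namespace Pool.Agent.Helper48.HH

open TensorProduct

variable {L V V' : Type} [Field L] [AddCommGroup V] [Module L V] [AddCommGroup V'] [Module L V']

/-- the projector to the eigenspace of `ρ` with the eigenvalue `ξ` -/
noncomputable def eig (n : ℕ) (ξ : L) (ρ : Module.End L V) : Module.End L V :=
  ((n : L)⁻¹) • ∑ j ∈ Finset.range n, (ξ⁻¹ ^ j) • ρ ^ j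

theorem eig_apply (n : ℕ) (ξ : L) (ρ : Module.End L V) (v : V) :
    eig n ξ ρ v = ((n : L)⁻¹) • ∑ j ∈ Finset.range n, (ξ⁻¹ ^ j) • (ρ ^ j) v := by
  simp [eig]

/-- the eigenvalue -/
theorem eig_map {n : ℕ} {ξ : L} {ρ : Module.End L V} (hρ : ρ ^ n = 1) (hξ : ξ ^ n = 1)
    (hn : 0 < n) (v : V) : ρ (eig n ξ ρ v) = ξ • eig n ξ ρ v := by
  have hξ0 : ξ ≠ 0 := by
    rintro rfl
    rw [zero_pow hn.ne'] at hξ
    exact zero_ne_one hξ
  rw [eig_apply, map_smul, smul_comm ξ]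
  congr 1
  rw [map_sum, Finset.smul_sum]
  have h1 : ∀ j, ρ ((ξ⁻¹ ^ j) • (ρ ^ j) v) = ξ • ((ξ⁻¹ ^ (j + 1)) • (ρ ^ (j + 1)) v) := by
    intro j
    rw [map_smul, smul_smul, pow_succ ρ, pow_succ' ξ⁻¹, ← mul_assoc, mul_inv_cancel₀ hξ0, one_mul]
    congr 1
    rw [← Module.End.mul_apply, ← pow_succ', pow_succ]
  simp only [h1]
  obtain ⟨m, rfl⟩ : ∃ m, n = m + 1 := ⟨n - 1, by omega⟩
  rw [Finset.sum_range_succ, Finset.sum_range_succ' (fun j => ξ • (ξ⁻¹ ^ j • (ρ ^ j) v))]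
  congr 1
  rw [hρ, inv_pow, hξ, pow_zero, pow_zero, inv_one]

/-- compatibility with operators which commute with `ρ` -/
theorem eig_comm {W : Type} [AddCommGroup W] [Module L W] {n : ℕ} {ξ : L} {ρ : Module.End L V}
    {ρ' : Module.End L W} (a : V →ₗ[L] W) (ha : ∀ v, a (ρ v) = ρ' (a v)) (v : V) :
    a (eig n ξ ρ v) = eig n ξ ρ' (a v) := by
  have h1 : ∀ (j : ℕ) (v : V), a ((ρ ^ j) v) = (ρ' ^ j) (a v) := by
    intro j
    induction j with
    | zero => intro v; simp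
    | succ j ih =>
      intro v
      rw [pow_succ, pow_succ, Module.End.mul_apply, Module.End.mul_apply, ih, ha]
  rw [eig_apply, eig_apply, map_smul, map_sum]
  congr 1
  refine Finset.sum_congr rfl fun j _ => ?_
  rw [map_smul, h1]

/-- the sum of the projectors -/
theorem eig_sum {n : ℕ} {ξ : L} {ρ : Module.End L V} (hξ : IsPrimitiveRoot ξ n)
    (hn : 0 < n) (hnL : (n : L) ≠ 0) (v : V) :
    ∑ i ∈ Finset.range n, eig n (ξ ^ i) ρ v = v := by
  have hξ0 : ξ ≠ 0 := hξ.ne_zero hn.ne'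
  simp only [eig_apply]
  rw [← Finset.smul_sum, Finset.sum_comm]
  have h1 : ∀ j ∈ Finset.range n, ∑ i ∈ Finset.range n, ((ξ ^ i)⁻¹ ^ j) • (ρ ^ j) v =
      if j = 0 then (n : L) • v else 0 := by
    intro j hj
    rw [Finset.mem_range] at hj
    rw [← Finset.sum_smul]
    have h2 : ∀ i, (ξ ^ i)⁻¹ ^ j = ((ξ ^ j)⁻¹) ^ i := by
      intro i
      rw [inv_pow, inv_pow, ← pow_mul, ← pow_mul, mul_comm]
    simp only [h2]
    by_cases hj0 : j = 0
    · subst hj0
      simp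
    · rw [if_neg hj0]
      have h3 : (ξ ^ j)⁻¹ ≠ 1 := by
        intro h
        rw [inv_eq_one] at h
        exact hj0 (Nat.eq_zero_of_dvd_of_lt ((hξ.pow_eq_one_iff_dvd j).1 h) hj)
      rw [geom_sum_eq h3, inv_pow, ← pow_mul, mul_comm j n, pow_mul, hξ.pow_eq_one, one_pow,
        inv_one, sub_self, zero_div, zero_smul]
  rw [Finset.sum_congr rfl h1, Finset.sum_ite_eq' (Finset.range n) 0 (fun _ => (n : L) • v),
    if_pos (Finset.mem_range.2 hn), smul_smul, inv_mul_cancel₀ hnL, one_smul]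

/-- **The invariant tensors.** -/
theorem tensor_sum {n : ℕ} {ξ : L} (hξ : IsPrimitiveRoot ξ n) (hn : 0 < n) (hnL : (n : L) ≠ 0)
    {ρ : Module.End L V} {ρ' : Module.End L V'} (hρ : ρ ^ n = 1) (hρ' : ρ' ^ n = 1)
    (t : V ⊗[L] V') (ht : TensorProduct.map ρ ρ' t = t) :
    ∑ i ∈ Finset.range n, TensorProduct.map (eig n (ξ ^ i) ρ) (eig n (ξ ^ i)⁻¹ ρ') t = t := by
  have hξ' : IsPrimitiveRoot ξ⁻¹ n := hξ.inv
  have hξ0 : ξ ≠ 0 := hξ.ne_zero hn.ne'
  -- all components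
  have h1 : ∀ u : V ⊗[L] V', ∑ i ∈ Finset.range n, ∑ j ∈ Finset.range n,
      TensorProduct.map (eig n (ξ ^ i) ρ) (eig n (ξ⁻¹ ^ j) ρ') u = u := by
    intro u
    induction u using TensorProduct.induction_on with
    | zero => simp
    | add u u' hu hu' =>
      conv_rhs => rw [← hu, ← hu']
      simp only [map_add, Finset.sum_add_distrib]
    | tmul p q =>
      simp only [map_tmul]
      conv_rhs => rw [← eig_sum hξ hn hnL (ρ := ρ) p, ← eig_sum hξ' hn hnL (ρ := ρ') q]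
      rw [sum_tmul]
      exact Finset.sum_congr rfl fun i _ => (tmul_sum _ _ _).symm
  have hpow : ∀ i : ℕ, (ξ ^ i) ^ n = 1 := fun i => by
    rw [← pow_mul, mul_comm, pow_mul, hξ.pow_eq_one, one_pow]
  have hpow' : ∀ i : ℕ, (ξ⁻¹ ^ i) ^ n = 1 := fun i => by
    rw [← pow_mul, mul_comm, pow_mul, hξ'.pow_eq_one, one_pow]
  -- the components with different indices vanish
  have h2 : ∀ i < n, ∀ j < n, j ≠ i →
      TensorProduct.map (eig n (ξ ^ i) ρ) (eig n (ξ⁻¹ ^ j) ρ') t = 0 := by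
    intro i hi j hj hij
    have h3 : ∀ u : V ⊗[L] V', TensorProduct.map (eig n (ξ ^ i) ρ) (eig n (ξ⁻¹ ^ j) ρ')
        (TensorProduct.map ρ ρ' u) = (ξ ^ i * ξ⁻¹ ^ j) •
          TensorProduct.map (eig n (ξ ^ i) ρ) (eig n (ξ⁻¹ ^ j) ρ') u := by
      intro u
      induction u using TensorProduct.induction_on with
      | zero => simp
      | add u u' hu hu' => simp only [map_add, smul_add, hu, hu']
      | tmul p q =>
        rw [map_tmul, map_tmul, map_tmul, ← eig_comm (ρ := ρ) (ρ' := ρ) ρ (fun _ => rfl),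
          ← eig_comm (ρ := ρ') (ρ' := ρ') ρ' (fun _ => rfl), eig_map hρ (hpow i) hn,
          eig_map hρ' (hpow' j) hn, smul_tmul_smul]
    have h4 := h3 t
    rw [ht] at h4
    have h5 : ξ ^ i * ξ⁻¹ ^ j ≠ 1 := by
      intro h
      rw [inv_pow, mul_inv_eq_one₀ (pow_ne_zero _ hξ0)] at h
      exact hij (hξ.pow_inj hi hj h).symm
    have h6 : (1 - ξ ^ i * ξ⁻¹ ^ j) •
        TensorProduct.map (eig n (ξ ^ i) ρ) (eig n (ξ⁻¹ ^ j) ρ') t = 0 := by
      rw [sub_smul, one_smul, ← h4, sub_self]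
    exact (smul_eq_zero.1 h6).resolve_left (sub_ne_zero.2 (Ne.symm h5))
  conv_rhs => rw [← h1 t]
  refine Finset.sum_congr rfl fun i hi => ?_
  rw [Finset.mem_range] at hi
  rw [Finset.sum_eq_single i]
  · rw [inv_pow]
  · intro j hj hij
    exact h2 i hi j (Finset.mem_range.1 hj) hij
  · intro h
    exact absurd (Finset.mem_range.2 hi) h

end Pool.Agent.Helper48.HH
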