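import Pool.Agent.Helper48.HH.Core
import Pool.Agent.Helper48.HH.Lin

/-! Project HH (joins): the intermediate fields of a cyclic cover of the plane. -/

set_option autoImplicit false

namespace Pool.Agent.Helper48.HH

open IntermediateField Pool.Agent.Helper75.QC Pool.Agent.Helper75.WC

/-- `K = Ω(x, y, w)` is a cyclic cover of degree `n` of the plane, `w ^ n ∈ Ω(x, y)`, and `σ` is the
automorphism `w ↦ ζ w`. -/
structure IsCyc (Ω : Type) {K : Type} [Field Ω] [Field K] [Algebra Ω K] (n : ℕ) (ζ : Ω)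
    (x y w : K) (σ : K →ₐ[Ω] K) : Prop where
  pos : 0 < n
  cast : (n : Ω) ≠ 0
  prim : IsPrimitiveRoot ζ n
  gen : adjoin Ω {x, y, w} = ⊤
  deg : Module.finrank (adjoin Ω {x, y} : IntermediateField Ω K) K = n
  ne : w ≠ 0
  mem : w ^ n ∈ adjoin Ω {x, y}
  fixx : σ x = x
  fixy : σ y = y
  mul : σ w = algebraMap Ω K ζ * w

/-- two homomorphisms which agree on generators -/
theorem hom_ext {Ω K E : Type} [Field Ω] [Field K] [Algebra Ω K] [Field E] [Algebra Ω E]
    {S : Set K} (hS : adjoin Ω S = ⊤) {f g : K →ₐ[Ω] E} (h : ∀ k ∈ S, f k = g k) : f = g := by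
  let A : IntermediateField Ω K :=
    { AlgHom.equalizer f g with
      inv_mem' := fun k hk => by
        change f k = g k at hk
        change f k⁻¹ = g k⁻¹
        rw [map_inv₀, map_inv₀, hk] }
  have h1 : adjoin Ω S ≤ A := by
    rw [adjoin_le_iff]
    exact fun k hk => h k hk
  rw [hS] at h1
  exact AlgHom.ext fun k => h1 (mem_top (x := k))

section

variable {Ω K : Type} [Field Ω] [Field K] [Algebra Ω K] {n : ℕ} {ζ : Ω} {x y w : K}
    {σ : K →ₐ[Ω] K}

theorem IsCyc.fix (h : IsCyc Ω n ζ x y w σ) {k : K} (hk : k ∈ adjoin Ω {x, y}) : σ k = k := by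
  let A : IntermediateField Ω K :=
    { AlgHom.equalizer σ (AlgHom.id Ω K) with
      inv_mem' := fun k hk => by
        change σ k = k at hk
        change σ k⁻¹ = k⁻¹
        rw [map_inv₀, hk] }
  have h1 : adjoin Ω {x, y} ≤ A := by
    rw [adjoin_le_iff]
    rintro k (rfl | rfl)
    · exact h.fixx
    · exact h.fixy
  exact h1 hk

theorem IsCyc.pow (h : IsCyc Ω n ζ x y w σ) (j : ℕ) :
    (σ ^ j) w = algebraMap Ω K (ζ ^ j) * w := by
  induction j with
  | zero => simp
  | succ j ih =>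
    rw [pow_succ', AlgHom.mul_apply, ih, map_mul, AlgHom.commutes, h.mul, ← mul_assoc, ← map_mul,
      ← pow_succ]

theorem IsCyc.pow_fix (h : IsCyc Ω n ζ x y w σ) (j : ℕ) {k : K} (hk : k ∈ adjoin Ω {x, y}) :
    (σ ^ j) k = k := by
  induction j with
  | zero => simp
  | succ j ih => rw [pow_succ', AlgHom.mul_apply, ih, h.fix hk]

theorem IsCyc.pow_eq_one (h : IsCyc Ω n ζ x y w σ) : σ ^ n = 1 := by
  refine hom_ext h.gen ?_
  rintro k (rfl | rfl | rfl)
  · exact h.pow_fix n (subset_adjoin _ _ (by simp))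
  · exact h.pow_fix n (subset_adjoin _ _ (by simp))
  · rw [h.pow, h.prim.pow_eq_one, map_one, one_mul]
    rfl

theorem map_pow_hom {L : Type} [Field L] (T : BaseTheory Ω L) (r : ℕ) (σ : K →ₐ[Ω] K) (j : ℕ) :
    T.map r (σ ^ j) = (T.map r σ : Module.End L (T.H r K)) ^ j := by
  induction j with
  | zero => exact T.map_id r K
  | succ j ih =>
    rw [pow_succ, pow_succ, ← ih]
    exact T.map_comp r σ (σ ^ j)

theorem top_of_gen {S : Set K} (B : IntermediateField Ω K) (hS : ∀ k ∈ S, k ∈ B ∨ k = w)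
    (hgen : adjoin Ω S = ⊤) : adjoin B {w} = ⊤ := by
  have h1 : adjoin Ω S ≤ (adjoin B {w}).restrictScalars Ω := by
    have mB : ∀ b ∈ B, b ∈ (adjoin B {w}).restrictScalars Ω := fun b hb =>
      (adjoin B {w}).algebraMap_mem ⟨b, hb⟩
    have mw : w ∈ (adjoin B {w}).restrictScalars Ω := by
      have h2 : w ∈ adjoin B {w} := subset_adjoin B {w} (Set.mem_singleton w)
      exact h2
    rw [adjoin_le_iff]
    intro k hk
    rcases hS k hk with h2 | h2
    · exact mB _ h2
    · rw [h2]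
      exact mw
  rw [hgen] at h1
  rw [eq_top_iff]
  intro k _
  exact h1 (mem_top (x := k))

theorem IsCyc.top (h : IsCyc Ω n ζ x y w σ) :
    adjoin (adjoin Ω {x, y} : IntermediateField Ω K) {w} = ⊤ := by
  refine top_of_gen _ ?_ h.gen
  rintro k (rfl | rfl | rfl)
  · exact Or.inl (subset_adjoin _ _ (by simp))
  · exact Or.inl (subset_adjoin _ _ (by simp))
  · exact Or.inr rfl

/-- a Kummer extension is a Galois extension -/
theorem galois_of_root {Ω K : Type} [Field Ω] [Field K] [Algebra Ω K]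
    (B : IntermediateField Ω K) {n : ℕ} {ζ : Ω} (hn : 0 < n) (hζ : IsPrimitiveRoot ζ n) (w : K)
    (hdeg : Module.finrank B K = n) (hw : w ^ n ∈ B) (htop : adjoin B {w} = ⊤) :
    FiniteDimensional B K ∧ IsGalois B K := by
  have hfin : FiniteDimensional B K := Module.finite_of_finrank_pos (by rw [hdeg]; exact hn)
  refine ⟨hfin, ?_⟩
  have hprim : (primitiveRoots (Module.finrank B K) B).Nonempty := by
    refine ⟨algebraMap Ω B ζ, ?_⟩
    rw [hdeg, mem_primitiveRoots hn]
    exact hζ.map_of_injective (algebraMap Ω B).injective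
  have h3 : ∃ α : K, α ^ (Module.finrank B K) ∈ Set.range (algebraMap B K) ∧
      adjoin B {α} = ⊤ := by
    refine ⟨w, ?_, htop⟩
    rw [hdeg]
    exact ⟨⟨w ^ n, hw⟩, rfl⟩
  have h4 : IsGalois B K ∧ IsCyclic (K ≃ₐ[B] K) := ((isCyclic_tfae B K hprim).out 0 2).2 h3
  exact h4.1

theorem IsCyc.galois (h : IsCyc Ω n ζ x y w σ) :
    FiniteDimensional (adjoin Ω {x, y} : IntermediateField Ω K) K ∧
      IsGalois (adjoin Ω {x, y} : IntermediateField Ω K) K :=
  galois_of_root _ h.pos h.prim w h.deg h.mem h.top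

end

end Pool.Agent.Helper48.HH
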