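import Pool.Agent.Helper48.TT.Defs

/-!
# Classes of degree four on the products of two surfaces: the axioms

`Ω` is an algebraic closure of a number field or of a finite field `F`, and `G` the identity
component of the Zariski closure of the image of `Gal(Ω/F)` in the product of the groups
`GL(H^i(K))`: a vector is fixed by `G` if and only if it is fixed by an open subgroup of
`Gal(Ω/F)`.
-/

set_option autoImplicit false

namespace Pool.Agent.Helper48.HH

open CategoryTheory MonoidalCategory Pool.Agent.Helper15.GD Pool.Agent.Helper48.TT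

/-- In addition to the data of `TateCoh`: the space `sup K K'` of the classes of degree four on the
product of the surfaces with function fields `K` and `K'` which are supported on divisors, and
their components `inc` in `H^2(K) ⊗ H^2(K')`. -/
structure JoinCoh (Ω L G : Type) [Field Ω] [Field L] extends TateCoh Ω L G where
  sup : Ext Ω → Ext Ω → ModuleCat.{0} L
  inc : ∀ K K' : Ext Ω, sup K K' ⟶ H 2 K ⊗ H 2 K'

variable {Ω L G : Type} [Field Ω] [Field L]

/-- `z` is an eigenvector, with the eigenvalue `ξ`, of the automorphism `u ↦ ζ u` of the curve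
`u ^ n = v ^ α * (1 - v) ^ β`, and `G` acts on it by `a`. -/
def JoinCoh.IsEigen (T : JoinCoh Ω L G) (n α β : ℕ) (ζ : Ω) (ξ : L) {C : Ext Ω}
    (z : 𝟙_ (ModuleCat.{0} L) ⟶ T.H 1 C) (a : G → L) : Prop :=
  ∃ (v u : C) (σ : C.Hom C), IsCurve C n α β ζ v u σ ∧ z ≠ 0 ∧ IsMul ξ z (z ≫ T.map 1 σ) ∧
    ∀ γ, IsMul (a γ) z (z ≫ T.act 1 C γ)

/-- The eigenspaces for inverse eigenvalues are dual to each other, with values in `L(-1)`. -/
def JoinCoh.Duality (T : JoinCoh Ω L G) : Prop :=
  ∀ (n α β : ℕ) (ζ : Ω) (ξ : L) (C C' : Ext Ω) (z : 𝟙_ (ModuleCat.{0} L) ⟶ T.H 1 C)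
    (z' : 𝟙_ (ModuleCat.{0} L) ⟶ T.H 1 C') (a a' : G → L), T.IsEigen n α β ζ ξ z a →
    T.IsEigen n α β ζ ξ⁻¹ z' a' → ∀ γ, a γ * a' γ * T.tate γ = 1

/-- An invariant form `q` on `H^1(C) ⊗ H^1(C')` with values in `L(-1)` is a linear combination of
classes of divisors (Tate, Faltings), so the contraction with `q` of the image of any class `r` in
`H^1(D) ⊗ H^1(D')` is supported on a divisor. -/
def JoinCoh.Supports (T : JoinCoh Ω L G) : Prop :=
  ∀ K C D K' C' D' : Ext Ω, ∀ g ∈ T.corr K C D, ∀ g' ∈ T.corr K' C' D', ∀ r q,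
    (∀ γ, IsMul (T.tate γ) ((T.act 1 C γ ⊗ₘ T.act 1 C' γ) ≫ q) q) →
    Lifts (contr₂ g g' r q) (T.inc K K')

/-- inverse and direct images of the classes supported on divisors -/
def JoinCoh.SupImages (T : JoinCoh Ω L G) : Prop :=
  ∀ (K E K' E' : Ext Ω) (j : K.Hom E) (j' : K'.Hom E'), j.IsAlgebraic → j'.IsAlgebraic →
    ∀ t : 𝟙_ (ModuleCat.{0} L) ⟶ _,
      Lifts (t ≫ (T.map 2 j ⊗ₘ T.map 2 j')) (T.inc E E') ↔ Lifts t (T.inc K K')

/-- The axioms. -/
structure JoinCoh.IsTheory (T : JoinCoh Ω L G) : Prop where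
  base : T.IsBase
  equivariant : T.Equivariant
  lines : T.Lines
  duality : T.Duality
  semisimple : T.Semisimple
  gysin : T.Gysin
  supports : T.Supports
  supImages : T.SupImages
  pairs : T.Pairs
  images : T.Images

end Pool.Agent.Helper48.HH
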