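import Pool.Agent.Helper48.HH.Mid

/-! Project HH (joins): the main theorem, in terms of the rows. -/

set_option autoImplicit false

namespace Pool.Agent.Helper48.HH

open IntermediateField TensorProduct Pool.Agent.Helper75.QC Pool.Agent.Helper48.TT

/-- a lift through an injective map -/
theorem exists_lift_of_range {L U V W : Type} [Field L] [AddCommGroup U] [Module L U]
    [AddCommGroup V] [Module L V] [AddCommGroup W] [Module L W] (f : U →ₗ[L] W)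
    (hf : Function.Injective f) (E : V →ₗ[L] W) (h : ∀ v, E v ∈ LinearMap.range f) :
    ∃ s : V →ₗ[L] U, ∀ v, f (s v) = E v := by
  let e := LinearEquiv.ofInjective f hf
  refine ⟨e.symm.toLinearMap ∘ₗ E.codRestrict _ h, fun v => ?_⟩
  have h1 : e (e.symm (E.codRestrict _ h v)) = E.codRestrict _ h v := e.apply_symm_apply _
  exact congrArg Subtype.val h1

/-- Two cyclic covers of degree `m` with the same twist. -/
def PairRow (Ω : Type) {M M' : Type} [Field Ω] [Field M] [Algebra Ω M] [Field M'] [Algebra Ω M']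
    (m : ℕ) (ζ : Ω) (σ : M →ₐ[Ω] M) (σ' : M' →ₐ[Ω] M') : Prop :=
  Uniruled Ω M 2 ∨ Uniruled Ω M' 2 ∨ ∃ α β t : ℕ, t.Coprime m ∧ (α.gcd β).Coprime m ∧
    ¬ m ∣ α ∧ ¬ m ∣ β ∧ ¬ m ∣ α + β ∧ RowP Ω M σ m α β (ζ ^ t) ∧ RowP Ω M' σ' m α β (ζ ^ t)

variable {Ω L G : Type} [Field Ω] [Field L] (T : JoinTheory Ω L G)

/-- **One pair of eigenspaces.** -/
theorem component [IsAlgClosed Ω] [CharZero L] [IsAlgClosed L] {K K' : Type} [Field K]
    [Algebra Ω K] [Field K'] [Algebra Ω K'] {n : ℕ} {ζ : Ω} {x y w : K} {x' y' w' : K'}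
    {σ : K →ₐ[Ω] K} {σ' : K' →ₐ[Ω] K'} (h : IsCyc Ω n ζ x y w σ) (h' : IsCyc Ω n ζ x' y' w' σ')
    (hrow : ∀ (m k : ℕ), n = m * k → 1 < m → ∀ (M M' : Type) [Field M] [Algebra Ω M] [Field M']
      [Algebra Ω M'] (j : M →ₐ[Ω] K) (j' : M' →ₐ[Ω] K') (x₁ y₁ w₁ : M) (x₁' y₁' w₁' : M')
      (σ₁ : M →ₐ[Ω] M) (σ₁' : M' →ₐ[Ω] M'), j x₁ = x → j y₁ = y → j w₁ = w ^ k → j' x₁' = x' →
      j' y₁' = y' → j' w₁' = w' ^ k → IsCyc Ω m (ζ ^ k) x₁ y₁ w₁ σ₁ →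
      IsCyc Ω m (ζ ^ k) x₁' y₁' w₁' σ₁' → PairRow Ω m (ζ ^ k) σ₁ σ₁')
    {ξ : L} (hξ : ξ ^ n = 1) (t : T.H 2 K ⊗[L] T.H 2 K') :
    TensorProduct.map (eig n ξ (T.map 2 σ)) (eig n ξ⁻¹ (T.map 2 σ')) t ∈ T.sup K K' ∧
      ((∀ γ, T.tate γ ^ 2 • TensorProduct.map (T.act 2 K γ) (T.act 2 K' γ) t = t) →
        TensorProduct.map (eig n ξ (T.map 2 σ)) (eig n ξ⁻¹ (T.map 2 σ')) t ∈ T.cycles K K') := by
  have hn := h.pos
  obtain ⟨m, hm⟩ : ∃ m, m = orderOf ξ := ⟨_, rfl⟩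
  have hprim : IsPrimitiveRoot ξ m := by
    rw [hm]
    exact IsPrimitiveRoot.orderOf ξ
  have hmn : m ∣ n := hprim.dvd_of_pow_eq_one n hξ
  obtain ⟨k, hk⟩ := hmn
  have hm0 : 0 < m := Nat.pos_of_ne_zero (by
    rintro rfl
    omega)
  have hξ0 : ξ ≠ 0 := by
    rintro rfl
    rw [zero_pow hn.ne'] at hξ
    exact zero_ne_one hξ
  have hρ : (T.map 2 σ : Module.End L (T.H 2 K)) ^ n = 1 := by
    rw [← map_pow_hom, h.pow_eq_one]
    exact T.map_id 2 K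
  have hρ' : (T.map 2 σ' : Module.End L (T.H 2 K')) ^ n = 1 := by
    rw [← map_pow_hom, h'.pow_eq_one]
    exact T.map_id 2 K'
  have hξ' : ξ⁻¹ ^ n = 1 := by rw [inv_pow, hξ, inv_one]
  obtain ⟨M, _, _, j, x₁, y₁, w₁, σ₁, ex, ey, ew, hσ₁, h₁, halg, hdesc⟩ :=
    exists_mid T.toBaseTheory h hk
  obtain ⟨M', _, _, j', x₁', y₁', w₁', σ₁', ex', ey', ew', hσ₁', h₁', halg', hdesc'⟩ :=
    exists_mid T.toBaseTheory h' hk
  have hinj := T.inj 2 j halg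
  have hinj' := T.inj 2 j' halg'
  have hpow : ∀ {V : Type} [AddCommGroup V] [Module L V] (ρ : Module.End L V) (η : L) (v : V),
      ρ v = η • v → ∀ i : ℕ, (ρ ^ i) v = η ^ i • v := by
    intro V _ _ ρ η v hv i
    induction i with
    | zero => simp
    | succ i ih => rw [pow_succ', Module.End.mul_apply, ih, map_smul, hv, smul_smul, pow_succ]
  obtain ⟨s, hs⟩ := exists_lift_of_range (T.map 2 j) hinj (eig n ξ (T.map 2 σ)) (fun v => by
    refine hdesc 2 _ ?_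
    rw [map_pow_hom, hpow _ ξ _ (eig_map hρ hξ hn v), hprim.pow_eq_one, one_smul])
  obtain ⟨s', hs'⟩ := exists_lift_of_range (T.map 2 j') hinj' (eig n ξ⁻¹ (T.map 2 σ')) (fun v => by
    refine hdesc' 2 _ ?_
    rw [map_pow_hom, hpow _ ξ⁻¹ _ (eig_map hρ' hξ' hn v), inv_pow, hprim.pow_eq_one, inv_one,
      one_smul])
  -- the components come from `M` and `M'`
  have hcomp : ∀ u : T.H 2 K ⊗[L] T.H 2 K',
      TensorProduct.map (eig n ξ (T.map 2 σ)) (eig n ξ⁻¹ (T.map 2 σ')) u =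
        TensorProduct.map (T.map 2 j) (T.map 2 j') (TensorProduct.map s s' u) := by
    intro u
    induction u using TensorProduct.induction_on with
    | zero => simp
    | add u u' hu hu' => simp only [map_add, hu, hu']
    | tmul p q => rw [map_tmul, map_tmul, map_tmul, hs, hs']
  rw [hcomp, (T.transfer j j' halg halg' _).1, (T.transfer j j' halg halg' _).2]
  -- the rows
  have hP : PairRow Ω m (ζ ^ k) σ₁ σ₁' := by
    rcases Nat.lt_or_ge 1 m with h1 | h1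
    · exact hrow m k hk h1 M M' j j' x₁ y₁ w₁ x₁' y₁' w₁' σ₁ σ₁' ex ey ew ex' ey' ew' h₁ h₁'
    · left
      have hm1 : m = 1 := by omega
      subst hm1
      refine Pool.Agent.Helper35.TD.uniruled_surface (n := 1) x₁ y₁ w₁ h₁.gen ?_
      have h2 := h₁.mem
      rwa [pow_one] at h2
  rcases hP with hU | hU | ⟨α, β, τ, hτ, hab, hα, hβ, hαβ, hr, hr'⟩
  · have h0 : s = 0 := LinearMap.ext fun t => T.uniruled 2 M hU (s t)
    rw [h0, map_zero_left, LinearMap.zero_apply]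
    exact ⟨Submodule.zero_mem _, fun _ => Submodule.zero_mem _⟩
  · have h0 : s' = 0 := LinearMap.ext fun t => T.uniruled 2 M' hU (s' t)
    rw [h0, map_zero_right, LinearMap.zero_apply]
    exact ⟨Submodule.zero_mem _, fun _ => Submodule.zero_mem _⟩
  have hdvd : ∀ i : ℕ, ¬ m ∣ i → ξ ^ i ≠ 1 := fun i hi h2 =>
    hi (hprim.dvd_of_pow_eq_one i h2)
  refine pairP T hr hr' hm0 h₁.cast (h₁.prim.pow_of_coprime τ hτ) hab hprim.pow_eq_one
    (hdvd _ hα) (hdvd _ hβ) (hdvd _ hαβ) s (fun γ v => ?_) (fun v => ?_) s' (fun γ v => ?_)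
    (fun v => ?_) t
  · apply hinj
    rw [T.map_act, hs, hs]
    exact eig_comm (ρ := T.map 2 σ) (ρ' := T.map 2 σ) (T.act 2 K γ)
      (fun u => (T.map_act 2 σ γ u).symm) v
  · apply hinj
    have e1 : T.map 2 j (T.map 2 σ₁ (s v)) = T.map 2 (j.comp σ₁) (s v) :=
      (LinearMap.congr_fun (T.map_comp 2 σ₁ j) (s v)).symm
    have e2 : T.map 2 (σ.comp j) (s v) = T.map 2 σ (T.map 2 j (s v)) :=
      LinearMap.congr_fun (T.map_comp 2 j σ) (s v)
    rw [e1, hσ₁, e2, hs, map_smul, hs]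
    exact eig_map hρ hξ hn v
  · apply hinj'
    rw [T.map_act, hs', hs']
    exact eig_comm (ρ := T.map 2 σ') (ρ' := T.map 2 σ') (T.act 2 K' γ)
      (fun u => (T.map_act 2 σ' γ u).symm) v
  · apply hinj'
    have e1 : T.map 2 j' (T.map 2 σ₁' (s' v)) = T.map 2 (j'.comp σ₁') (s' v) :=
      (LinearMap.congr_fun (T.map_comp 2 σ₁' j') (s' v)).symm
    have e2 : T.map 2 (σ'.comp j') (s' v) = T.map 2 σ' (T.map 2 j' (s' v)) :=
      LinearMap.congr_fun (T.map_comp 2 j' σ') (s' v)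
    rw [e1, hσ₁', e2, hs', map_smul, hs']
    exact eig_map hρ' hξ' hn v

/-- **The main theorem.** -/
theorem main [IsAlgClosed Ω] [CharZero L] [IsAlgClosed L] {K K' : Type} [Field K]
    [Algebra Ω K] [Field K'] [Algebra Ω K'] {n : ℕ} {ζ : Ω} {x y w : K} {x' y' w' : K'}
    {σ : K →ₐ[Ω] K} {σ' : K' →ₐ[Ω] K'} (h : IsCyc Ω n ζ x y w σ) (h' : IsCyc Ω n ζ x' y' w' σ')
    (hrow : ∀ (m k : ℕ), n = m * k → 1 < m → ∀ (M M' : Type) [Field M] [Algebra Ω M] [Field M']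
      [Algebra Ω M'] (j : M →ₐ[Ω] K) (j' : M' →ₐ[Ω] K') (x₁ y₁ w₁ : M) (x₁' y₁' w₁' : M')
      (σ₁ : M →ₐ[Ω] M) (σ₁' : M' →ₐ[Ω] M'), j x₁ = x → j y₁ = y → j w₁ = w ^ k → j' x₁' = x' →
      j' y₁' = y' → j' w₁' = w' ^ k → IsCyc Ω m (ζ ^ k) x₁ y₁ w₁ σ₁ →
      IsCyc Ω m (ζ ^ k) x₁' y₁' w₁' σ₁' → PairRow Ω m (ζ ^ k) σ₁ σ₁')
    (t : T.H 2 K ⊗[L] T.H 2 K') (ht : TensorProduct.map (T.map 2 σ) (T.map 2 σ') t = t) :
    T.Good t := by
  have hn := h.pos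
  have hn0 : NeZero n := ⟨hn.ne'⟩
  have hnL : (n : L) ≠ 0 := by exact_mod_cast hn.ne'
  have : NeZero (n : L) := ⟨hnL⟩
  obtain ⟨ξ, hξ⟩ : ∃ ξ : L, IsPrimitiveRoot ξ n := HasEnoughRootsOfUnity.exists_primitiveRoot L n
  have hρ : (T.map 2 σ : Module.End L (T.H 2 K)) ^ n = 1 := by
    rw [← map_pow_hom, h.pow_eq_one]
    exact T.map_id 2 K
  have hρ' : (T.map 2 σ' : Module.End L (T.H 2 K')) ^ n = 1 := by
    rw [← map_pow_hom, h'.pow_eq_one]
    exact T.map_id 2 K'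
  have hsum := tensor_sum hξ hn hnL hρ hρ' t ht
  have hpow : ∀ i : ℕ, (ξ ^ i) ^ n = 1 := fun i => by
    rw [← pow_mul, mul_comm, pow_mul, hξ.pow_eq_one, one_pow]
  refine ⟨?_, fun htate => ?_⟩
  · rw [← hsum]
    exact Submodule.sum_mem _ fun i _ => (component T h h' hrow (hpow i) t).1
  · rw [← hsum]
    exact Submodule.sum_mem _ fun i _ => (component T h h' hrow (hpow i) t).2 htate

end Pool.Agent.Helper48.HH
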