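import Pool.Agent.Helper48.HH.Cyc

/-! Project HH (joins): the intermediate fields of a cyclic cover of the plane. -/

set_option autoImplicit false

namespace Pool.Agent.Helper48.HH

open IntermediateField Pool.Agent.Helper75.QC Pool.Agent.Helper75.WC

/-- classes which are fixed by the Galois group -/
theorem descent_of_fix {Ω L K : Type} [Field Ω] [Field L] [Field K] [Algebra Ω K]
    (T : BaseTheory Ω L) {n : ℕ} {ζ : Ω} {x y w : K} {σ : K →ₐ[Ω] K} (h : IsCyc Ω n ζ x y w σ)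
    {m k : ℕ} (hmk : n = m * k) (M : IntermediateField Ω K) (hx : x ∈ M) (hy : y ∈ M)
    (hw : w ^ k ∈ M) (hdeg : Module.finrank M K = k) (r : ℕ) (t : T.H r K)
    (ht : T.map r (σ ^ m) t = t) : t ∈ LinearMap.range (T.map r M.val) := by
  have hk : 0 < k := Nat.pos_of_ne_zero (by
    rintro rfl
    have := h.pos
    omega)
  have hm : 0 < m := Nat.pos_of_ne_zero (by
    rintro rfl
    have := h.pos
    omega)
  have hζ : IsPrimitiveRoot (ζ ^ m) k := h.prim.pow h.pos hmk
  have htop : adjoin M {w} = ⊤ := by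
    refine top_of_gen M ?_ h.gen
    rintro a (rfl | rfl | rfl)
    · exact Or.inl hx
    · exact Or.inl hy
    · exact Or.inr rfl
  obtain ⟨h1, h2⟩ := galois_of_root M hk hζ w hdeg hw htop
  refine T.descent r K M t fun τ => ?_
  -- `τ` is a power of `σ ^ m`
  have h3 : ∃ j : ℕ, τ.restrictScalars Ω = (σ ^ m) ^ j := by
    have h4 : (τ w / w) ^ k = 1 := by
      have h5 : τ (w ^ k) = w ^ k := τ.commutes (⟨w ^ k, hw⟩ : M)
      rw [div_pow, ← map_pow, h5, div_self (pow_ne_zero _ h.ne)]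
    have hζK : IsPrimitiveRoot (algebraMap Ω K (ζ ^ m)) k :=
      hζ.map_of_injective (algebraMap Ω K).injective
    have hk0 : NeZero k := ⟨hk.ne'⟩
    obtain ⟨j, -, hj⟩ := hζK.eq_pow_of_pow_eq_one h4
    refine ⟨j, hom_ext h.gen ?_⟩
    rintro a (rfl | rfl | rfl)
    · rw [← pow_mul, h.pow_fix _ (subset_adjoin _ _ (by simp))]
      exact τ.commutes (⟨_, hx⟩ : M)
    · rw [← pow_mul, h.pow_fix _ (subset_adjoin _ _ (by simp))]
      exact τ.commutes (⟨_, hy⟩ : M)
    · rw [← pow_mul, h.pow, pow_mul, map_pow, hj, div_mul_cancel₀ _ h.ne]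
      rfl
  obtain ⟨j, hj⟩ := h3
  rw [hj, map_pow_hom T r (σ ^ m) j]
  clear hj
  induction j with
  | zero => rfl
  | succ j ih => rw [pow_succ, Module.End.mul_apply, ht, ih]

/-- **The intermediate field of degree `m`.** -/
theorem exists_mid {Ω L K : Type} [Field Ω] [Field L] [Field K] [Algebra Ω K]
    (T : BaseTheory Ω L) {n : ℕ} {ζ : Ω} {x y w : K} {σ : K →ₐ[Ω] K} (h : IsCyc Ω n ζ x y w σ)
    {m k : ℕ} (hmk : n = m * k) :
    ∃ (M : Type) (_ : Field M) (_ : Algebra Ω M) (j : M →ₐ[Ω] K) (x₁ y₁ w₁ : M)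
      (σ₁ : M →ₐ[Ω] M), j x₁ = x ∧ j y₁ = y ∧ j w₁ = w ^ k ∧ j.comp σ₁ = σ.comp j ∧
      IsCyc Ω m (ζ ^ k) x₁ y₁ w₁ σ₁ ∧ (∀ a : K, IsAlgebraic j.fieldRange a) ∧
      ∀ (r : ℕ) (t : T.H r K), T.map r (σ ^ m) t = t → t ∈ LinearMap.range (T.map r j) := by
  have hk : 0 < k := Nat.pos_of_ne_zero (by
    rintro rfl
    have := h.pos
    omega)
  have hm : 0 < m := Nat.pos_of_ne_zero (by
    rintro rfl
    have := h.pos
    omega)
  obtain ⟨M, hM⟩ : ∃ M : IntermediateField Ω K, M = adjoin Ω {x, y, w ^ k} := ⟨_, rfl⟩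
  have hx : x ∈ M := by rw [hM]; exact subset_adjoin _ _ (by simp)
  have hy : y ∈ M := by rw [hM]; exact subset_adjoin _ _ (by simp)
  have hw : w ^ k ∈ M := by rw [hM]; exact subset_adjoin _ _ (by simp)
  obtain ⟨x₁, hx₁⟩ : ∃ x₁ : M, x₁ = ⟨x, hx⟩ := ⟨_, rfl⟩
  obtain ⟨y₁, hy₁⟩ : ∃ y₁ : M, y₁ = ⟨y, hy⟩ := ⟨_, rfl⟩
  obtain ⟨w₁, hw₁⟩ : ∃ w₁ : M, w₁ = ⟨w ^ k, hw⟩ := ⟨_, rfl⟩
  have ex : (x₁ : K) = x := by rw [hx₁]
  have ey : (y₁ : K) = y := by rw [hy₁]
  have ew : (w₁ : K) = w ^ k := by rw [hw₁]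
  have htop : adjoin M {w} = ⊤ := by
    refine top_of_gen M ?_ h.gen
    rintro a (rfl | rfl | rfl)
    · exact Or.inl hx
    · exact Or.inl hy
    · exact Or.inr rfl
  have hgen : adjoin Ω {x₁, y₁, w₁} = ⊤ := by
    apply lift_injective M
    rw [lift_top, lift_adjoin]
    have h1 : M.val '' {x₁, y₁, w₁} = {x, y, w ^ k} := by
      rw [Set.image_insert_eq, Set.image_pair]
      change {(x₁ : K), (y₁ : K), (w₁ : K)} = _
      rw [ex, ey, ew]
    exact (congrArg (adjoin Ω) h1).trans hM.symm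
  -- the plane in `M`
  obtain ⟨B, hB⟩ : ∃ B : IntermediateField Ω M, B = adjoin Ω {x₁, y₁} := ⟨_, rfl⟩
  have hBK : ∀ b : B, ((b : M) : K) ∈ adjoin Ω {x, y} := by
    intro b
    have h1 : B ≤ (adjoin Ω {x, y}).comap M.val := by
      rw [hB, adjoin_le_iff]
      rintro s (rfl | rfl)
      · change ((_ : M) : K) ∈ adjoin Ω {x, y}
        rw [ex]
        exact subset_adjoin _ _ (by simp)
      · change ((_ : M) : K) ∈ adjoin Ω {x, y}
        rw [ey]
        exact subset_adjoin _ _ (by simp)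
    exact h1 b.2
  have hKB : ∀ b ∈ adjoin Ω {x, y}, ∃ c : B, ((c : M) : K) = b := by
    have h1 : adjoin Ω {x, y} ≤ B.map M.val := by
      rw [adjoin_le_iff]
      rintro s (rfl | rfl)
      · refine ⟨x₁, ?_, ex⟩
        rw [hB]
        exact subset_adjoin Ω {x₁, y₁} (by simp)
      · refine ⟨y₁, ?_, ey⟩
        rw [hB]
        exact subset_adjoin Ω {x₁, y₁} (by simp)
    intro b hb
    obtain ⟨c, hc, hc'⟩ := h1 hb
    exact ⟨⟨c, hc⟩, hc'⟩
  have hBn : Module.finrank B K = n := by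
    let i : B →+* (adjoin Ω {x, y} : IntermediateField Ω K) :=
      { toFun := fun b => ⟨((b : M) : K), hBK b⟩
        map_one' := rfl
        map_mul' := fun _ _ => rfl
        map_zero' := rfl
        map_add' := fun _ _ => rfl }
    have hi : Function.Bijective i := by
      refine ⟨i.injective, fun b => ?_⟩
      obtain ⟨c, hc⟩ := hKB b.1 b.2
      exact ⟨c, Subtype.ext hc⟩
    rw [← h.deg]
    exact Algebra.finrank_eq_of_equiv_equiv (RingEquiv.ofBijective i hi) (RingEquiv.refl K)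
      (RingHom.ext fun _ => rfl)
  have hmem₁ : w₁ ^ m ∈ B := by
    obtain ⟨c, hc⟩ := hKB (w ^ n) h.mem
    have h1 : w₁ ^ m = (c : M) := by
      apply Subtype.ext
      change (w₁ : K) ^ m = ((c : M) : K)
      rw [ew, hc, ← pow_mul, mul_comm k m, ← hmk]
    rw [h1]
    exact c.2
  have hBtop : adjoin B {w₁} = ⊤ := by
    refine top_of_gen B ?_ hgen
    rintro a (rfl | rfl | rfl)
    · left
      rw [hB]
      exact subset_adjoin _ _ (by simp)
    · left
      rw [hB]
      exact subset_adjoin _ _ (by simp)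
    · exact Or.inr rfl
  have f1 : FiniteDimensional B K := Module.finite_of_finrank_pos (by rw [hBn]; exact h.pos)
  have f2 : FiniteDimensional M K := FiniteDimensional.right B M K
  have f3 : FiniteDimensional B M := FiniteDimensional.left B M K
  have hmul := Module.finrank_mul_finrank B M K
  rw [hBn] at hmul
  have h4 : Module.finrank M K ≤ k :=
    Pool.Agent.Helper75.WC.finrank_le_of_pow htop hk (c := ⟨w ^ k, hw⟩) rfl
  have h5 : Module.finrank B M ≤ m :=
    Pool.Agent.Helper75.WC.finrank_le_of_pow hBtop hm (c := ⟨w₁ ^ m, hmem₁⟩) rfl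
  have h6 : Module.finrank B M = m ∧ Module.finrank M K = k := by
    have h7 : m * k ≤ Module.finrank B M * k := by
      rw [← hmk, ← hmul]
      exact Nat.mul_le_mul_left _ h4
    have h8 := Nat.le_of_mul_le_mul_right h7 hk
    have h9 : Module.finrank B M = m := le_antisymm h5 h8
    refine ⟨h9, ?_⟩
    rw [h9, hmk] at hmul
    exact Nat.eq_of_mul_eq_mul_left hm hmul
  -- the automorphism
  have hσM : ∀ a : M, σ a ∈ M := by
    have h1 : M ≤ M.comap σ := by
      nth_rewrite 1 [hM]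
      rw [adjoin_le_iff]
      rintro s (rfl | rfl | rfl)
      · change σ _ ∈ M
        rw [h.fixx]
        exact hx
      · change σ _ ∈ M
        rw [h.fixy]
        exact hy
      · change σ (w ^ k) ∈ M
        rw [map_pow, h.mul, mul_pow, ← map_pow]
        exact mul_mem (M.algebraMap_mem _) hw
    exact fun a => h1 a.2
  let σ₁ : M →ₐ[Ω] M :=
    { toFun := fun a => ⟨σ a, hσM a⟩
      map_one' := Subtype.ext (map_one σ)
      map_mul' := fun a b => Subtype.ext (map_mul σ _ _)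
      map_zero' := Subtype.ext (map_zero σ)
      map_add' := fun a b => Subtype.ext (map_add σ _ _)
      commutes' := fun a => Subtype.ext (σ.commutes a) }
  refine ⟨M, inferInstance, inferInstance, M.val, x₁, y₁, w₁, σ₁, ex, ey, ew, rfl,
    ⟨hm, ?_, ?_, hgen, ?_, ?_, ?_, ?_, ?_, ?_⟩, fun a => ?_, fun r t ht =>
      descent_of_fix T h hmk M hx hy hw h6.2 r t ht⟩
  · intro h1
    apply h.cast
    rw [hmk, Nat.cast_mul, h1, zero_mul]
  · exact h.prim.pow h.pos (by rw [hmk, mul_comm])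
  · rw [← hB]
    exact h6.1
  · intro h1
    have h2 : (w₁ : K) = 0 := by rw [h1]; rfl
    rw [ew] at h2
    exact pow_ne_zero _ h.ne h2
  · rw [← hB]
    exact hmem₁
  · apply Subtype.ext
    change σ (x₁ : K) = (x₁ : K)
    rw [ex, h.fixx]
  · apply Subtype.ext
    change σ (y₁ : K) = (y₁ : K)
    rw [ey, h.fixy]
  · apply Subtype.ext
    change σ (w₁ : K) = algebraMap Ω K (ζ ^ k) * (w₁ : K)
    rw [ew, map_pow, h.mul, mul_pow, ← map_pow]
  · have h1 : IsAlgebraic M a := Algebra.IsAlgebraic.isAlgebraic a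
    obtain ⟨p, hp0, hp⟩ := h1
    let e : M →+* M.val.fieldRange := M.val.rangeRestrict.toRingHom
    refine ⟨p.map e, ?_, ?_⟩
    · rw [Ne, Polynomial.map_eq_zero_iff e.injective]
      exact hp0
    · rw [Polynomial.aeval_def, Polynomial.eval₂_map]
      exact hp

end Pool.Agent.Helper48.HH
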