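import Pool.Agent.Helper48.HH.Theory

/-! Project HH (joins): one side, where the automorphism and the eigenvalue are given. -/

set_option autoImplicit false

namespace Pool.Agent.Helper48.HH

open IntermediateField TensorProduct Pool.Agent.Helper75.QC Pool.Agent.Helper75.WC
  Pool.Agent.Helper15.WC Pool.Agent.Helper48.TT

variable {Ω L G : Type} [Field Ω] [Field L] (T : JoinTheory Ω L G)

/-- **One side.** -/
theorem exists_sideP {M : Type} [Field M] [Algebra Ω M] {σ : M →ₐ[Ω] M} {n α β : ℕ} {ζ : Ω}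
    (hrow : RowP Ω M σ n α β ζ) (hn : 0 < n) (hn' : (n : Ω) ≠ 0) (hζ : IsPrimitiveRoot ζ n)
    (hab : (α.gcd β).Coprime n) {ξ : L} (hξn : ξ ^ n = 1) (hα : ξ ^ α ≠ 1) (hβ : ξ ^ β ≠ 1)
    (hαβ : ξ ^ (α + β) ≠ 1) {K₁ : Type} [Field K₁] [Algebra Ω K₁] (s : T.H 2 K₁ →ₗ[L] T.H 2 M)
    (hs : ∀ γ t, T.act 2 M γ (s t) = s (T.act 2 K₁ γ t))
    (hσs : ∀ t, T.map 2 σ (s t) = ξ • s t) :
    ∃ (C D : Type) (_ : Field C) (_ : Algebra Ω C) (_ : Field D) (_ : Algebra Ω D)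
      (z : T.H 1 C) (κ : G → L) (g : T.H 1 D →ₗ[L] T.H 2 M ⊗[L] T.H 1 C)
      (d : T.H 2 K₁ →ₗ[L] T.H 1 D) (φ : T.H 1 C →ₗ[L] L),
      IsVec T.toBaseTheory n α β ζ ξ⁻¹ C (T.act 1 C) z κ ∧ IsSide T s κ C D z g d φ := by
  classical
  obtain ⟨x, y, w, hM, hw0, hwm, hx, hy, hσw, huni⟩ := hrow
  have hfg : (⊤ : IntermediateField Ω M).FG := by
    rw [← hM]
    exact fg_adjoin_of_finite (Set.toFinite _)
  have hxy : ∀ k : M, k ∈ Acl Ω {x, y} := by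
    intro k
    rw [← mem_AF]
    have h1 : adjoin Ω {x, y, w} ≤ AF Ω {x, y} := by
      rw [adjoin_le_iff]
      have h2 : adjoin Ω {x, y} ≤ AF Ω {x, y} := by
        rw [adjoin_le_iff]
        exact fun r hr => subset_AF _ hr
      rintro k (rfl | rfl | rfl)
      · exact subset_AF _ (by simp)
      · exact subset_AF _ (by simp)
      · exact AF_root hn (h2 hwm)
    apply h1
    rw [hM]
    exact mem_top
  have hξ0 : ξ ≠ 0 := by
    rintro rfl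
    rw [zero_pow hn.ne'] at hξn
    exact zero_ne_one hξn
  have hinv : ∀ j : ℕ, ξ ^ j ≠ 1 → ξ⁻¹ ^ j ≠ 1 := by
    intro j hj h
    apply hj
    rwa [inv_pow, inv_eq_one] at h
  obtain ⟨C, N, iC, jC, iN, jN, v, u, a, b, hv, hu, hC, hbv, hNg, hsig, -, -⟩ :=
    Pool.Agent.Helper35.TD.exists_curve_ab (Ω := Ω) (α := α) (β := β) hn hab M
  obtain ⟨τ, hτ⟩ := hsig ζ hζ.pow_eq_one
  have hfinC : (⊤ : IntermediateField Ω C).FG := by
    rw [← hC]
    exact fg_adjoin_of_finite (Set.toFinite _)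
  obtain ⟨z, hz0, hz⟩ := T.curve C n α β ζ v u τ hn' hζ hv hu hC hτ.1 hτ.2 ξ⁻¹
    (by rw [inv_pow, hξn, inv_one]) (hinv _ hα) (hinv _ hβ) (hinv _ hαβ)
  -- the character
  have hchar : ∀ γ, ∃ e : L, T.act 1 C γ z = e • z := fun γ =>
    T.simple C n α β ζ v u τ hn' hζ hv hu hC hτ.1 hτ.2 ξ⁻¹ z (T.act 1 C γ z) hz0 hz (by
      rw [T.map_act, hz, map_smul])
  choose e he using hchar
  have huni' : ∀ z : T.H 3 (adjoin Ω {a x, a y, b v, b u / a w} : IntermediateField Ω N), z = 0 := by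
    apply T.uniruled
    refine huni N a (b v) (b u / a w) hbv ?_
    have h2 : b u ^ n = b v ^ α * (1 - b v) ^ β := by
      rw [← map_pow, hu, map_mul, map_pow, map_pow, map_sub, map_one]
    have h3 : a w ≠ 0 := fun h => hw0 (a.injective (h.trans (map_zero a).symm))
    rw [div_pow, h2, div_mul_cancel₀ _ (pow_ne_zero _ h3)]
  obtain ⟨D, iD, jD, g, d, φ, -, h2, h3, h4, h5, h6⟩ := side T a b x y v hfg hfinC hxy
    (mem_Acl_of hn v u hu hC) hbv s hs z hz0 e he (fun t =>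
      cross_zero T.toBaseTheory hn hn' hζ a b x y w v u hM hC hNg hw0 hwm σ
        ⟨hx, hy, hσw⟩ τ hτ huni' ξ hξ0 (s t) (hσs t) z hz)
  exact ⟨C, D, iC, jC, iD, jD, z, e, g, d, φ, ⟨v, u, τ, hn', hζ, hv, hu, hC,
    hτ.1, hτ.2, by rw [inv_pow, hξn, inv_one], hz0, hz, he⟩, ⟨h2, h3, h4, h5, h6⟩⟩

end Pool.Agent.Helper48.HH
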