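import Pool.Agent.Helper43.V7.Fin

/-! Project HH (joins). The rows with explicit exponents `α`, `β` and the action of the
automorphism: definitions, and the statement of the block TRK. -/

set_option autoImplicit false

namespace Pool.Agent.Helper48.HH

open IntermediateField MvPolynomial Pool.Agent.Helper75.QC Pool.Agent.Helper75.WC
  Pool.Agent.Helper43.V7

/-- `M = Ω(x, y, w)`, `σ` is the automorphism `w ↦ ζ w` over `Ω(x, y)`, `w ^ n ∈ Ω(x, y)`, and the
threefold `v ^ α (1 - v) ^ β = s ^ n w ^ n` is uniruled. -/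
def RowP (Ω M : Type) [Field Ω] [Field M] [Algebra Ω M] (σ : M →ₐ[Ω] M) (n α β : ℕ) (ζ : Ω) :
    Prop :=
  ∃ x y w : M, adjoin Ω {x, y, w} = ⊤ ∧ w ≠ 0 ∧ w ^ n ∈ adjoin Ω {x, y} ∧ σ x = x ∧ σ y = y ∧
    σ w = algebraMap Ω M ζ * w ∧
    ∀ (N : Type) [Field N] [Algebra Ω N] (g : M →ₐ[Ω] N) (v s : N),
      Transcendental g.fieldRange v → v ^ α * (1 - v) ^ β = s ^ n * g w ^ n →
      Uniruled Ω (adjoin Ω {g x, g y, v, s} : IntermediateField Ω N) 3

/-- The natural condition for all characters. -/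
def NatAll (n : ℕ) (D : ℕ → ℕ) : Prop :=
  ∀ k < n, ∑ e ∈ Finset.range n, ((k * e) % n) * D e ≤ 2 * n ∨
    ∑ e ∈ Finset.range n, (((n - k) * e) % n) * D e ≤ 2 * n

/-- **Block TRK**: for every type there are `α`, `β`, `t` (the same for all fields `M`) such that
`M` is uniruled or satisfies `RowP`. The generator `w` of `Rep` is replaced by `w ^ t` times an
element of `R`. -/
def StmtTrack (n : ℕ) : Prop :=
  ∀ {L : List ℕ}, L.length = n - 1 → n ∣ ∑ e ∈ Finset.range n, e * ent (0 :: L) e →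
    NatAll n (ent (0 :: L)) →
    ∃ α β t : ℕ, t.Coprime n ∧ (n ≤ 2 ∨ (α.gcd β).Coprime n ∧ ¬ n ∣ α ∧ ¬ n ∣ β ∧ ¬ n ∣ α + β) ∧
      ∀ {Ω R M : Type} [Field Ω] [IsAlgClosed Ω] [Field R] [Field M] [Algebra Ω R] [Algebra Ω M]
        [Algebra R M] [IsScalarTower Ω R M] [FiniteDimensional R M] [IsGalois R M],
        Module.finrank R M = n → ∀ (H : Rep Ω R M n (ent (0 :: L))) (σ : M →ₐ[R] M) (ζ : Ω),
          σ H.w = algebraMap Ω M ζ * H.w →
          Uniruled Ω M 2 ∨ RowP Ω M (σ.restrictScalars Ω) n α β (ζ ^ t)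

end Pool.Agent.Helper48.HH
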