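import Pool.Agent.Helper48.TT.RowsM
import Pool.Agent.Helper48.HH.Types

/-! Project HH (joins): the structure used in the proofs, and the products of an eigenspace with an
eigenvector of a curve. -/

set_option autoImplicit false

namespace Pool.Agent.Helper48.HH

open IntermediateField TensorProduct Pool.Agent.Helper75.QC Pool.Agent.Helper75.WC
  Pool.Agent.Helper48.TT

/-- `z` is an eigenvector of the automorphism `u ↦ ζ u` of the curve `u ^ n = v ^ α (1 - v) ^ β`,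
for the eigenvalue `ξ`, and `G` acts on it by `κ`. -/
def IsVec {Ω L G : Type} [Field Ω] [Field L] (T : BaseTheory Ω L) (n α β : ℕ) (ζ : Ω) (ξ : L)
    (C : Type) [Field C] [Algebra Ω C] (ρ : G → T.H 1 C →ₗ[L] T.H 1 C) (z : T.H 1 C) (κ : G → L) :
    Prop :=
  ∃ (v u : C) (τ : C →ₐ[Ω] C), (n : Ω) ≠ 0 ∧ IsPrimitiveRoot ζ n ∧
    Transcendental Ω v ∧ u ^ n = v ^ α * (1 - v) ^ β ∧ adjoin Ω {v, u} = ⊤ ∧ τ v = v ∧
    τ u = algebraMap Ω C ζ * u ∧ ξ ^ n = 1 ∧ z ≠ 0 ∧ T.map 1 τ z = ξ • z ∧ ∀ γ, ρ γ z = κ γ • z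

/-- The structure used in the proofs: `cycles` and `sup` are the classes in `H 2 K ⊗ H 2 K'` of
cycles of codimension two and the classes supported on divisors. -/
structure JoinTheory (Ω L G : Type) [Field Ω] [Field L] extends BaseTheory Ω L where
  act : ∀ (i : ℕ) (K : Type) [Field K] [Algebra Ω K], G → (H i K →ₗ[L] H i K)
  map_act : ∀ (i : ℕ) {K K' : Type} [Field K] [Algebra Ω K] [Field K'] [Algebra Ω K']
    (g : K →ₐ[Ω] K') (γ : G) (t : H i K), map i g (act i K γ t) = act i K' γ (map i g t)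
  tate : G → L
  corr : ∀ (K C D : Type) [Field K] [Algebra Ω K] [Field C] [Algebra Ω C] [Field D]
    [Algebra Ω D], Set (H 1 D →ₗ[L] H 2 K ⊗[L] H 1 C)
  cycles : ∀ (K K' : Type) [Field K] [Algebra Ω K] [Field K'] [Algebra Ω K'],
    Submodule L (H 2 K ⊗[L] H 2 K')
  sup : ∀ (K K' : Type) [Field K] [Algebra Ω K] [Field K'] [Algebra Ω K'],
    Submodule L (H 2 K ⊗[L] H 2 K')
  simple : ∀ (C : Type) [Field C] [Algebra Ω C] (n α β : ℕ) (ζ : Ω) (v u : C) (σ : C →ₐ[Ω] C),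
    (n : Ω) ≠ 0 → IsPrimitiveRoot ζ n → Transcendental Ω v → u ^ n = v ^ α * (1 - v) ^ β →
    adjoin Ω {v, u} = ⊤ → σ v = v → σ u = algebraMap Ω C ζ * u →
    ∀ (ξ : L) (z z' : H 1 C), z ≠ 0 → map 1 σ z = ξ • z → map 1 σ z' = ξ • z' → ∃ c : L, z' = c • z
  semisimple : ∀ (K : Type) [Field K] [Algebra Ω K], (⊤ : IntermediateField Ω K).FG →
    ∀ P : Submodule L (H 1 K), (∀ γ, ∀ t ∈ P, act 1 K γ t ∈ P) →
      ∃ Q : Submodule L (H 1 K), (∀ γ, ∀ t ∈ Q, act 1 K γ t ∈ Q) ∧ IsCompl P Q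
  gysin : ∀ {K C N : Type} [Field K] [Algebra Ω K] [Field C] [Algebra Ω C] [Field N]
    [Algebra Ω N] (a : K →ₐ[Ω] N) (b : C →ₐ[Ω] N) (x y : K) (v : C),
    (⊤ : IntermediateField Ω K).FG → (⊤ : IntermediateField Ω C).FG →
    (∀ k : K, k ∈ Acl Ω {x, y}) → (∀ k : C, k ∈ Acl Ω {v}) →
    Transcendental a.fieldRange (b v) →
    ∃ (D : Type) (_ : Field D) (_ : Algebra Ω D) (g : H 1 D →ₗ[L] H 2 K ⊗[L] H 1 C),
      (⊤ : IntermediateField Ω D).FG ∧ g ∈ corr K C D ∧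
      (∀ (γ : G) (s : H 1 D), tate γ • TensorProduct.map (act 2 K γ) (act 1 C γ) (g s) =
        g (act 1 D γ s)) ∧
      ∀ t, TensorProduct.lift ((cup N).compl₁₂ (map 2 a) (map 1 b)) t = 0 →
        t ∈ LinearMap.range g
  pair : ∀ (K C D K' C' D' : Type) [Field K] [Algebra Ω K] [Field C] [Algebra Ω C] [Field D]
    [Algebra Ω D] [Field K'] [Algebra Ω K'] [Field C'] [Algebra Ω C'] [Field D'] [Algebra Ω D'],
    ∀ g ∈ corr K C D, ∀ g' ∈ corr K' C' D', ∀ (r : H 1 D ⊗[L] H 1 D') (q : H 1 C ⊗[L] H 1 C' →ₗ[L] L),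
      (∀ γ t, tate γ • q (TensorProduct.map (act 1 C γ) (act 1 C' γ) t) = q t) →
      contr q (TensorProduct.map g g' r) ∈ sup K K' ∧
        ((∀ γ, tate γ • TensorProduct.map (act 1 D γ) (act 1 D' γ) r = r) →
          contr q (TensorProduct.map g g' r) ∈ cycles K K')
  transfer : ∀ {K K₁ K' K₁' : Type} [Field K] [Algebra Ω K] [Field K₁] [Algebra Ω K₁] [Field K']
    [Algebra Ω K'] [Field K₁'] [Algebra Ω K₁'] (j : K →ₐ[Ω] K₁) (j' : K' →ₐ[Ω] K₁'),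
    (∀ a : K₁, IsAlgebraic j.fieldRange a) → (∀ a : K₁', IsAlgebraic j'.fieldRange a) →
    ∀ t, (TensorProduct.map (map 2 j) (map 2 j') t ∈ sup K₁ K₁' ↔ t ∈ sup K K') ∧
      (TensorProduct.map (map 2 j) (map 2 j') t ∈ cycles K₁ K₁' ↔ t ∈ cycles K K')
  dual : ∀ (n α β : ℕ) (ζ : Ω) (ξ : L) (C : Type) [Field C] [Algebra Ω C] (z : H 1 C) (κ : G → L)
    (C' : Type) [Field C'] [Algebra Ω C'] (z' : H 1 C') (κ' : G → L),
    IsVec toBaseTheory n α β ζ ξ⁻¹ C (act 1 C) z κ → IsVec toBaseTheory n α β ζ ξ C' (act 1 C') z' κ' →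
      ∀ γ, tate γ * (κ γ * κ' γ) = 1

variable {Ω L G : Type} [Field Ω] [Field L] (T : JoinTheory Ω L G)

/-- What is known about one side. -/
structure IsSide {K₁ M : Type} [Field K₁] [Algebra Ω K₁] [Field M] [Algebra Ω M]
    (s : T.H 2 K₁ →ₗ[L] T.H 2 M) (α : G → L) (C D : Type) [Field C] [Algebra Ω C] [Field D]
    [Algebra Ω D] (z : T.H 1 C) (g : T.H 1 D →ₗ[L] T.H 2 M ⊗[L] T.H 1 C)
    (d : T.H 2 K₁ →ₗ[L] T.H 1 D) (φ : T.H 1 C →ₗ[L] L) : Prop where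
  corr : g ∈ T.corr M C D
  one : φ z = 1
  form : ∀ γ y, φ (T.act 1 C γ y) = α γ * φ y
  lift : ∀ t, g (d t) = s t ⊗ₜ z
  equiv : ∀ γ t, T.act 1 D γ (d t) = (T.tate γ * α γ) • d (T.act 2 K₁ γ t)

/-- **One side.** Let `s` be an equivariant homomorphism with values in `H 2 M` such that the
products of its values with an eigenvector `z ∈ H 1 C` vanish at the generic point. -/
theorem side {K₁ M C N : Type} [Field K₁] [Algebra Ω K₁] [Field M] [Algebra Ω M] [Field C]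
    [Algebra Ω C] [Field N] [Algebra Ω N] (a : M →ₐ[Ω] N) (b : C →ₐ[Ω] N) (x y : M) (v : C)
    (hM : (⊤ : IntermediateField Ω M).FG) (hC : (⊤ : IntermediateField Ω C).FG)
    (hxy : ∀ k : M, k ∈ Acl Ω {x, y}) (hv : ∀ k : C, k ∈ Acl Ω {v})
    (htr : Transcendental a.fieldRange (b v)) (s : T.H 2 K₁ →ₗ[L] T.H 2 M)
    (hs : ∀ γ t, T.act 2 M γ (s t) = s (T.act 2 K₁ γ t)) (z : T.H 1 C) (hz : z ≠ 0) (α : G → L)
    (hα : ∀ γ, T.act 1 C γ z = α γ • z)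
    (h0 : ∀ t, T.cup N (T.map 2 a (s t)) (T.map 1 b z) = 0) :
    ∃ (D : Type) (_ : Field D) (_ : Algebra Ω D) (g : T.H 1 D →ₗ[L] T.H 2 M ⊗[L] T.H 1 C)
      (d : T.H 2 K₁ →ₗ[L] T.H 1 D) (φ : T.H 1 C →ₗ[L] L), (⊤ : IntermediateField Ω D).FG ∧
      g ∈ T.corr M C D ∧ φ z = 1 ∧ (∀ γ y, φ (T.act 1 C γ y) = α γ * φ y) ∧
      (∀ t, g (d t) = s t ⊗ₜ z) ∧
      ∀ γ t, T.act 1 D γ (d t) = (T.tate γ * α γ) • d (T.act 2 K₁ γ t) := by
  obtain ⟨D, _, _, g, hD, hg, heq, hker⟩ := T.gysin a b x y v hM hC hxy hv htr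
  obtain ⟨φ, hφz, hφ⟩ := exists_form (T.act 1 C) (T.semisimple C hC) z hz α hα
  -- the kernel of `g` and a complement
  obtain ⟨Q, hQ, hKQ⟩ := T.semisimple D hD (LinearMap.ker g) (by
    intro γ t ht
    rw [LinearMap.mem_ker] at ht ⊢
    rw [← heq, ht, map_zero, smul_zero])
  have hinj : ∀ q ∈ Q, g q = 0 → q = 0 := by
    intro q hq h
    have h2 : q ∈ LinearMap.ker g ⊓ Q := ⟨h, hq⟩
    rwa [hKQ.inf_eq_bot, Submodule.mem_bot] at h2
  obtain ⟨l, hl⟩ := LinearMap.exists_leftInverse_of_injective (g ∘ₗ Q.subtype) (by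
    rw [LinearMap.ker_eq_bot']
    intro q hq
    exact Subtype.ext (hinj q q.2 hq))
  have hlq : ∀ q : Q, l (g q) = q := fun q => LinearMap.congr_fun hl q
  have hgl : ∀ u ∈ LinearMap.range g, g (l u : Q) = u := by
    rintro _ ⟨p, rfl⟩
    obtain ⟨k, hk, q, hq, rfl⟩ := Submodule.mem_sup.1
      (show p ∈ LinearMap.ker g ⊔ Q by rw [hKQ.sup_eq_top]; trivial)
    rw [map_add, LinearMap.mem_ker.1 hk, zero_add, hlq ⟨q, hq⟩]
  have hrange : ∀ t, s t ⊗ₜ[L] z ∈ LinearMap.range g := by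
    intro t
    refine hker _ ?_
    rw [TensorProduct.lift.tmul]
    exact h0 t
  let d : T.H 2 K₁ →ₗ[L] T.H 1 D := Q.subtype ∘ₗ l ∘ₗ (TensorProduct.mk L _ _).flip z ∘ₗ s
  have hd : ∀ t, d t = (l (s t ⊗ₜ[L] z) : Q) := fun t => rfl
  refine ⟨D, _, _, g, d, φ, hD, hg, hφz, hφ, fun t => ?_, fun γ t => ?_⟩
  · rw [hd]
    exact hgl _ (hrange t)
  · have h1 : g (T.act 1 D γ (d t)) = g ((T.tate γ * α γ) • d (T.act 2 K₁ γ t)) := by
      rw [← heq, hd, hgl _ (hrange t), TensorProduct.map_tmul, hα, hs, map_smul, hd,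
        hgl _ (hrange _), TensorProduct.tmul_smul, smul_smul]
    have h2 : T.act 1 D γ (d t) - (T.tate γ * α γ) • d (T.act 2 K₁ γ t) ∈ Q := by
      refine Q.sub_mem (hQ γ _ ?_) (Q.smul_mem _ ?_)
      · rw [hd]; exact Subtype.property _
      · rw [hd]; exact Subtype.property _
    refine sub_eq_zero.1 (hinj _ h2 ?_)
    rw [map_sub, h1, sub_self]

end Pool.Agent.Helper48.HH
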